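import Pool.Agent.W277.UB.Pl
import Pool.Agent.W277.UH.F2

/-!
# Project FP: strong uniform boundedness for rational maps with constant fixed points

The map is `f(x) = x - 1 / ∑ r_i / (x - ζ_i)`, of degree `d`, with `d + 1` different constants `ζ_i`
and `∑ r_i = 1`. Its fixed points are the `ζ_i`, the multiplier of `ζ_i` is `1 - 1 / r_i`.
Statements of the jobs.
-/

set_option autoImplicit false

namespace Pool.Agent.X328.FP

open Finset Polynomial Pool.Agent.W277.UB Pool.Agent.W277.UH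

universe u v w

noncomputable section

/-- `∏ (X - ζ_i)` -/
def WW {K : Type*} [Field K] {D : ℕ} (ζ : Fin D → K) : K[X] := ∏ i, (X - C (ζ i))

/-- the denominator `∑ r_i ∏_{j ≠ i} (X - ζ_j)` -/
def AA {K : Type*} [Field K] {D : ℕ} (ζ r : Fin D → K) : K[X] :=
  ∑ i, C (r i) * ∏ j ∈ univ.erase i, (X - C (ζ j))

/-- the numerator -/
def PP {K : Type*} [Field K] {D : ℕ} (ζ r : Fin D → K) : K[X] := X * AA ζ r - WW ζ

/-- `p' q - p q'`, whose zeros are the critical points of `p / q` -/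
def wr {K : Type*} [Field K] (p q : K[X]) : K[X] := derivative p * q - p * derivative q

/-- the value of `p / q` -/
def vl {K : Type*} [Field K] (p q : K[X]) (x : K) : K := p.eval x / q.eval x

/-- the height given by the places -/
def hQ {k K : Type*} [Field k] [Field K] [Algebra k K] (Q : PlaceData k K) (x : K) : ℤ :=
  ∑ᶠ v, Q.wt v * Q.pole v x

/-- **HQ**: simple properties of the height. (Product formula: apply `Q.prod_formula` to `x` and to
`x⁻¹`, so `∑ wt v * ord v x = 0` over every finite set which contains all `v` with `ord v x ≠ 0`.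
`pole v x = max 0 (-ord v x)`, `pole v (x - c) = pole v x` for constants `c`.) -/
def S_HQ : Prop := ∀ (k : Type v) (K : Type u) [Field k] [Field K] [Algebra k K]
  (Q : PlaceData.{w} k K),
  (∀ x, 0 ≤ hQ Q x) ∧
  (∀ (x : K) (S : Finset Q.Pl), (∀ v, v ∉ S → Q.pole v x = 0) →
    ∑ v ∈ S, Q.wt v * Q.pole v x = hQ Q x) ∧
  (∀ x, x ≠ 0 → hQ Q x⁻¹ = hQ Q x) ∧
  (∀ (c : k) (x : K), hQ Q (x - algebraMap k K c) = hQ Q x) ∧
  (∀ x, x ≠ 0 → ∀ (S : Finset Q.Pl) (e : Q.Pl → ℤ), (∀ v ∈ S, e v ≤ Q.ord v x) →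
    ∑ v ∈ S, Q.wt v * e v ≤ hQ Q x) ∧
  (∀ x, x ≠ 0 → ∀ S : Finset Q.Pl, (∀ v, v ∉ S → Q.ord v x ≤ 0) → (∀ v ∈ S, 0 ≤ Q.ord v x) →
    hQ Q x = ∑ v ∈ S, Q.wt v * Q.ord v x)

/-- **ZA**: for one of the `r i` the zeros of `r i - 1` at which some other `r j` has smaller order
carry a large part of the height. Proof: Let `r i ≠ 1`. The positive `ε = ord v (r i - 1)` is of
type 1 if `ord v (r j) < ε` for some `j ≠ i`, otherwise of type 2. Then `hQ (r i) = hQ (r i - 1) =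
Z i + A i`, the sums of `wt v * ε` over the places of type 1 and 2. A place of type 2 for `i` is a zero
of all the other `r j` of order at least `ε` (and it is of type 2 for no other index, since `r i` is
`1` at `v`), so `∑_{i ≠ j} A i ≤ hQ (r j)` for all `j`. The sum over `j` gives
`d * ∑ A ≤ ∑ hQ (r j) = ∑ Z + ∑ A`, so `∑ A ≤ ∑ Z` and `∑ hQ (r j) ≤ 2 ∑ Z ≤ 2 (d + 1) max Z`. (For
`r i = 1` put `Z i = A i = 0`.) -/
def S_ZA : Prop := ∀ (k : Type v) (K : Type u) [Field k] [Field K] [Algebra k K]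
  (Q : PlaceData.{w} k K) (d : ℕ), 2 ≤ d → ∀ r : Fin (d + 1) → K, (∀ i, r i ≠ 0) →
  0 < ∑ j, hQ Q (r j) →
  ∃ (i : Fin (d + 1)) (Z : Finset Q.Pl), r i ≠ 1 ∧
    (∀ v ∈ Z, 0 < Q.ord v (r i - 1) ∧ ∃ j, j ≠ i ∧ Q.ord v (r j) < Q.ord v (r i - 1)) ∧
    ∑ j, hQ Q (r j) ≤ 2 * ((d : ℤ) + 1) * ∑ v ∈ Z, Q.wt v * Q.ord v (r i - 1)

/-- **STEP**: the height of a value. Proof: at every place the coefficients of `PP`, `AA` are
combinations of `1` and the `r i` with constant coefficients, so their order is at least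
`-∑ pole v (r i)`; `AA` is monic of degree `d`, `PP` has degree at most `d`, they are coprime
(`AA (ζ i) = r i * ∏ (ζ i - ζ j) ≠ 0` and `PP = X * AA - WW`). Use `Pool.Agent.Y784.CH.low` with
`n = min (ord PP(x), ord AA(x))`, `-n ≥ d * pole v x - ord Res + (2 d - 1) * ord c`; sum over the places;
the resultant and `AA(x)` disappear by the product formula, as
`pole v (PP(x) / AA(x)) = ord AA(x) - min (ord PP(x), ord AA(x))`. -/
def S_STEP : Prop := ∀ (k : Type v) (K : Type u) [Field k] [CharZero k] [Field K] [Algebra k K]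
  (Q : PlaceData.{w} k K) (d : ℕ), 2 ≤ d → ∀ z : Fin (d + 1) → k, Function.Injective z →
  ∀ ζ : Fin (d + 1) → K, (∀ i, ζ i = algebraMap k K (z i)) →
  ∀ r : Fin (d + 1) → K, (∀ i, r i ≠ 0) → ∑ i, r i = 1 →
  ∀ x : K, (AA ζ r).eval x ≠ 0 →
    (d : ℤ) * hQ Q x - (2 * d - 1) * ∑ i, hQ Q (r i) ≤ hQ Q (vl (PP ζ r) (AA ζ r) x)

/-- **LOC1**: an attracting fixed point `0` of the map `g = p / q`, `p = X (ρ U + X V)`,
`q = (1 + ρ) U + X V`, attracts a critical point. -/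
def S_LOC1 : Prop := ∀ (k : Type v) (K : Type u) [Field k] [CharZero k] [Field K] [Algebra k K]
  (Q : PlaceData.{w} k K) (v : Q.Pl) (U V : K[X]) (ρ : K), ρ ≠ 0 → 0 < Q.ord v ρ →
  (∀ i, Q.G v 0 (U.coeff i)) → U.coeff 0 ≠ 0 → Q.ord v (U.coeff 0) = 0 →
  (∃ i, V.coeff i ≠ 0 ∧ Q.ord v (V.coeff i) < Q.ord v ρ) →
  ∀ p q : K[X], p = X * (C ρ * U + X * V) → q = C (1 + ρ) * U + X * V → p.Splits →
  (wr p q).Splits →
  ∃ c : K, (wr p q).eval c = 0 ∧ ∀ m : ℕ, q.eval ((vl p q)^[m] c) ≠ 0 ∧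
    (vl p q)^[m + 1] c ≠ 0 ∧ ((m : ℤ) + 1) * Q.ord v ρ ≤ Q.ord v ((vl p q)^[m + 1] c)

/-- **LOC**: the same for the map of the project and the fixed point `ζ i`. Proof from LOC1: put
`p = (PP - ζ_i AA)(X + ζ_i)`, `q = AA(X + ζ_i)`, `ρ = r_i - 1`,
`U = ∏_{j ≠ i} (X - (ζ_j - ζ_i))`, `V = ∑_{j ≠ i} r_j ∏_{l ≠ i, j} (X - (ζ_l - ζ_i))`, so
`q = r_i U + X V`, `p = X q - X U` and `vl p q x = vl PP AA (x + ζ_i) - ζ_i`. If all coefficients of
`V` had order at least `ε = ord v (r_i - 1)` then so would have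
`V (ζ_j - ζ_i) = r_j ∏_{l ≠ i, j} (ζ_j - ζ_l)`, that is, `r_j`, for all `j ≠ i`. -/
def S_LOC : Prop := ∀ (k : Type v) (K : Type u) [Field k] [CharZero k] [Field K] [Algebra k K]
  (Q : PlaceData.{w} k K) (v : Q.Pl) (d : ℕ), 2 ≤ d → ∀ z : Fin (d + 1) → k,
  Function.Injective z → ∀ ζ : Fin (d + 1) → K, (∀ i, ζ i = algebraMap k K (z i)) →
  ∀ r : Fin (d + 1) → K, (∀ i, r i ≠ 0) → ∑ i, r i = 1 →
  ∀ i, r i ≠ 1 → 0 < Q.ord v (r i - 1) →
  (∃ j, j ≠ i ∧ Q.ord v (r j) < Q.ord v (r i - 1)) →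
  (PP ζ r - C (ζ i) * AA ζ r).Splits → (wr (PP ζ r) (AA ζ r)).Splits →
  ∃ c : K, (wr (PP ζ r) (AA ζ r)).eval c = 0 ∧
    ∀ m : ℕ, (AA ζ r).eval ((vl (PP ζ r) (AA ζ r))^[m] c) ≠ 0 ∧
      (vl (PP ζ r) (AA ζ r))^[m + 1] c ≠ ζ i ∧
      ((m : ℤ) + 1) * Q.ord v (r i - 1) ≤ Q.ord v ((vl (PP ζ r) (AA ζ r))^[m + 1] c - ζ i)

/-- **GL**: a critical point of large height (from LOC, HQ, ZA, STEP). Proof: take `i`, `Z` from ZA and
for `v ∈ Z` the critical point `c v` from LOC. The critical points are at most `2 d - 2` roots of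
`wr (PP) (AA) ≠ 0` (degree at most `2 d - 2`; `2 d` is good enough). For `x_m = f^m (c)`, `m ≥ 1`, HQ gives
`hQ (x_m) = hQ (x_m - ζ_i) ≥ ∑ m * wt v * ord v (r i - 1)` over the `v ∈ Z` with `c v = c`, so for
some `c` with a place `v ∈ Z` (hence no `AA (x_m)` is zero)
`2 d * 2 (d + 1) * hQ (x_n) ≥ n * H`, `H = ∑ hQ (r j)`, for one `n = 8 d ^ 2 (d + 1)` (a power
of the pigeonhole principle for this `n` only). Then `hQ (x_n) ≥ 2 d H`, and by STEP
`hQ (x_(n+m)) ≥ d ^ m (hQ (x_n) - (2 d - 1) H) ≥ d ^ m H`. -/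
def S_GL : Prop := ∀ (k : Type v) (K : Type u) [Field k] [CharZero k] [Field K] [Algebra k K]
  (Q : PlaceData.{w} k K) (d : ℕ), 2 ≤ d → ∀ z : Fin (d + 1) → k,
  Function.Injective z → ∀ ζ : Fin (d + 1) → K, (∀ i, ζ i = algebraMap k K (z i)) →
  ∀ r : Fin (d + 1) → K, (∀ i, r i ≠ 0) → ∑ i, r i = 1 → 0 < ∑ j, hQ Q (r j) →
  (∀ i, (PP ζ r - C (ζ i) * AA ζ r).Splits) → (wr (PP ζ r) (AA ζ r)).Splits →
  ∃ c : K, (wr (PP ζ r) (AA ζ r)).eval c = 0 ∧
    (∀ m : ℕ, (AA ζ r).eval ((vl (PP ζ r) (AA ζ r))^[m] c) ≠ 0) ∧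
    ∀ m : ℕ, (d : ℤ) ^ m * ∑ j, hQ Q (r j) ≤
      hQ Q ((vl (PP ζ r) (AA ζ r))^[8 * d ^ 2 * (d + 1) + m] c)

/-- **FIN**: the theorem (from GL and `Pool.Agent.Y706.CH.finM`, all hypotheses of which are theorems,
see `Pool.Agent.Results.MP_9b502d_nt.LargeCriticalHeight`). Proof: let `W` be the product of
`wr (PP) (AA)` and of all `PP - ζ_i AA`, `M = L(roots of W)`, of degree at most `b(d)` over `L`
(`S_DEG`), `k'` the algebraic closure of `k` in `M`, and `Q` place data of `M / k'` (`S_PD`, whose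
constant depends on the degree of `M` only, hence is bounded by `C = C(n, d)`; the degree over
`k'(X)` of `M` is at most `n * b(d)` as in `finM_aux`). If no `r_i` is transcendental there is nothing
to prove. GL gives the critical point `c`; `hgt k' x` and `hQ x` agree up to the factor `C`,
`hgt k` and `hgt k'` up to `n b(d)` (`S_HT`, `S_KF`), the coefficients of `PP`, `AA` have
`hQ` at most `∑ hQ (r j)`, so the hypothesis of `finM` holds with
`B = (constant) * d ^ (8 d ^ 2 (d + 1))`. -/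
def S_FIN : Prop := ∀ d n : ℕ, 2 ≤ d → ∃ N : ℕ, ∀ (k : Type v) (L : Type u) [Field k] [CharZero k]
  [Field L] [Algebra k L] (t : L), Transcendental k t →
  FiniteDimensional (IntermediateField.adjoin k {t}) L →
  Module.finrank (IntermediateField.adjoin k {t}) L ≤ n →
  ∀ ζ r : Fin (d + 1) → L, Function.Injective ζ → (∀ i, IsAlgebraic k (ζ i)) →
  (∀ i, r i ≠ 0) → ∑ i, r i = 1 → (∃ i, Transcendental k (r i)) →
  {z : Option L | (Set.range fun m : ℕ =>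
    (ratP1 (PP ζ r) (AA ζ r) d)^[m] z).Finite}.encard ≤ (N : ℕ∞)

end

end Pool.Agent.X328.FP
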