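import Mathlib
import Pool.Agent.X328.FP.Stm

/-! # HQ: simple properties of the height -/

set_option autoImplicit false

namespace Pool.Agent.X328.FP

open Finset Pool.Agent.W277.UB Pool.Agent.W277.UB.PlaceData

universe u v w

section

variable {k K : Type*} [Field k] [Field K] [Algebra k K] (Q : PlaceData k K)

lemma pf_eq (x : K) (hx : x ≠ 0) (S : Finset Q.Pl) (hS : ∀ v, v ∉ S → Q.ord v x = 0) :
    ∑ v ∈ S, Q.wt v * Q.ord v x = 0 := by
  have h1 := Q.prod_formula x hx S fun v hv => (hS v hv).ge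
  have h2 := Q.prod_formula x⁻¹ (inv_ne_zero hx) S fun v hv => by rw [ord_inv hx, hS v hv]; simp
  have h3 : ∑ v ∈ S, Q.wt v * Q.ord v x⁻¹ = -∑ v ∈ S, Q.wt v * Q.ord v x := by
    rw [← Finset.sum_neg_distrib]
    refine Finset.sum_congr rfl fun v _ => ?_
    rw [ord_inv hx]
    ring
  rw [h3] at h2
  omega

lemma hQ_supp (x : K) (S : Finset Q.Pl) (hS : ∀ v, v ∉ S → Q.pole v x = 0) :
    ∑ v ∈ S, Q.wt v * Q.pole v x = hQ Q x := by
  unfold hQ
  rw [finsum_eq_sum_of_support_subset _ (s := S)]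
  intro v hv
  by_contra hcon
  apply hv
  have : Q.pole v x = 0 := hS v (by simpa using hcon)
  simp [this]

lemma hQ_nonneg (x : K) : 0 ≤ hQ Q x :=
  finsum_nonneg fun v => mul_nonneg (Q.wt_nonneg v) (pole_nonneg v x)

lemma pole_inv {v : Q.Pl} {x : K} (hx : x ≠ 0) : Q.pole v x⁻¹ = max 0 (Q.ord v x) := by
  rw [pole_of_ne (inv_ne_zero hx), ord_inv hx, neg_neg]

lemma hQ_inv (x : K) (hx : x ≠ 0) : hQ Q x⁻¹ = hQ Q x := by
  set S := (Q.fin x hx).toFinset with hSdef
  have hS : ∀ v, v ∉ S → Q.ord v x = 0 := by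
    intro v hv
    by_contra hcon
    exact hv (by simpa [hSdef] using hcon)
  have h1 := hQ_supp Q x S fun v hv => by rw [pole_of_ne hx, hS v hv]; simp
  have h2 := hQ_supp Q x⁻¹ S fun v hv => by rw [pole_inv Q hx, hS v hv]; simp
  have h3 := pf_eq Q x hx S hS
  rw [← h1, ← h2, ← sub_eq_zero, ← Finset.sum_sub_distrib, ← h3]
  refine Finset.sum_congr rfl fun v _ => ?_
  rw [pole_inv Q hx, pole_of_ne hx, ← mul_sub]
  congr 1
  rcases le_total 0 (Q.ord v x) with h | h
  · rw [max_eq_right h, max_eq_left (by omega)]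
    ring
  · rw [max_eq_left h, max_eq_right (by omega)]
    ring

lemma pole_sub_alg (v : Q.Pl) (c : k) (x : K) : Q.pole v (x - algebraMap k K c) = Q.pole v x := by
  apply le_antisymm
  · apply pole_le_of_G (pole_nonneg v x)
    exact G_sub (G_pole v x) (G_mono (G_alg c) (by have := pole_nonneg v x; omega))
  · apply pole_le_of_G (pole_nonneg v _)
    have h1 : x = (x - algebraMap k K c) + algebraMap k K c := by ring
    conv_rhs => rw [h1]
    exact G_add (G_pole v _) (G_mono (G_alg c) (by have := pole_nonneg v (x - algebraMap k K c); omega))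

lemma hQ_sub (c : k) (x : K) : hQ Q (x - algebraMap k K c) = hQ Q x := by
  unfold hQ
  exact finsum_congr fun v => by rw [pole_sub_alg]

lemma pole_eq_zero_of {v : Q.Pl} {x : K} (h : x ≠ 0 → 0 ≤ Q.ord v x) : Q.pole v x = 0 := by
  by_cases hx : x = 0
  · rw [hx, pole_zero]
  · rw [pole_of_ne hx]
    have := h hx
    omega

lemma le_hQ (x : K) (S : Finset Q.Pl) : ∑ v ∈ S, Q.wt v * Q.pole v x ≤ hQ Q x := by
  classical
  by_cases hx : x = 0
  · have h1 : ∀ v ∈ S, Q.wt v * Q.pole v x = 0 := fun v _ => by rw [hx, pole_zero, mul_zero]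
    rw [Finset.sum_eq_zero h1]
    exact hQ_nonneg Q x
  · set T := (Q.fin x hx).toFinset with hTdef
    have hT : ∀ v, v ∉ T → Q.pole v x = 0 := by
      intro v hv
      have : Q.ord v x = 0 := by
        by_contra hcon
        exact hv (by simpa [hTdef] using hcon)
      rw [pole_of_ne hx, this]
      simp
    rw [← hQ_supp Q x (S ∪ T) fun v hv => hT v fun h => hv (Finset.mem_union_right _ h)]
    exact Finset.sum_le_sum_of_subset_of_nonneg Finset.subset_union_left
      fun v _ _ => mul_nonneg (Q.wt_nonneg v) (pole_nonneg v x)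

theorem t_HQ : S_HQ.{u, v, w} := by
  intro k K _ _ _ Q
  refine ⟨hQ_nonneg Q, hQ_supp Q, hQ_inv Q, hQ_sub Q, ?_, ?_⟩
  · intro x hx S e he
    rw [← hQ_inv Q x hx]
    refine le_trans (Finset.sum_le_sum fun v hv => ?_) (le_hQ Q x⁻¹ S)
    apply mul_le_mul_of_nonneg_left _ (Q.wt_nonneg v)
    rw [pole_inv Q hx]
    exact (he v hv).trans (le_max_right _ _)
  · intro x hx S h1 h2
    rw [← hQ_inv Q x hx, ← hQ_supp Q x⁻¹ S]
    · refine Finset.sum_congr rfl fun v hv => ?_
      rw [pole_inv Q hx, max_eq_right (h2 v hv)]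
    · intro v hv
      rw [pole_inv Q hx, max_eq_left (h1 v hv)]

end

end Pool.Agent.X328.FP
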