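import Mathlib
import Pool.Agent.X328.FP.Stm

/-! # Basic properties of the polynomials `PP`, `AA` -/

set_option autoImplicit false

namespace Pool.Agent.X328.FP

open Finset Polynomial Pool.Agent.W277.UB Pool.Agent.W277.UB.PlaceData

universe u v w

section

variable {K : Type*} [Field K] {D : ℕ}

lemma eval_prod_erase (ζ : Fin D → K) (i j : Fin D) (h : i ≠ j) :
    (∏ l ∈ univ.erase j, (X - C (ζ l))).eval (ζ i) = 0 := by
  rw [eval_prod]
  apply Finset.prod_eq_zero (Finset.mem_erase.2 ⟨h, mem_univ i⟩)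
  simp

lemma eval_AA (ζ r : Fin D → K) (i : Fin D) :
    (AA ζ r).eval (ζ i) = r i * ∏ j ∈ univ.erase i, (ζ i - ζ j) := by
  unfold AA
  rw [eval_finsetSum, Finset.sum_eq_single i]
  · rw [eval_mul, eval_C, eval_prod]
    simp
  · intro j _ hj
    rw [eval_mul, eval_prod_erase ζ i j (Ne.symm hj), mul_zero]
  · intro h
    exact absurd (mem_univ i) h

lemma eval_AA_ne (ζ r : Fin D → K) (hζ : Function.Injective ζ) (hr : ∀ i, r i ≠ 0) (i : Fin D) :
    (AA ζ r).eval (ζ i) ≠ 0 := by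
  rw [eval_AA]
  refine mul_ne_zero (hr i) (Finset.prod_ne_zero_iff.2 fun j hj => ?_)
  rw [sub_ne_zero]
  intro h
  exact (Finset.mem_erase.1 hj).1 (hζ h).symm

lemma eval_WW (ζ : Fin D → K) (i : Fin D) : (WW ζ).eval (ζ i) = 0 := by
  unfold WW
  rw [eval_prod]
  apply Finset.prod_eq_zero (mem_univ i)
  simp

lemma coprime_PA (ζ r : Fin D → K) (hζ : Function.Injective ζ) (hr : ∀ i, r i ≠ 0) :
    IsCoprime (PP ζ r) (AA ζ r) := by
  have h1 : IsCoprime (WW ζ) (AA ζ r) := by
    unfold WW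
    refine IsCoprime.prod_left fun i _ => ?_
    rw [(irreducible_X_sub_C (ζ i)).coprime_iff_not_dvd, dvd_iff_isRoot]
    exact eval_AA_ne ζ r hζ hr i
  have h2 : PP ζ r = -WW ζ + X * AA ζ r := by
    unfold PP
    ring
  rw [h2]
  exact (h1.neg_left).add_mul_right_left X

lemma monic_WW (ζ : Fin D → K) : (WW ζ).Monic := monic_prod_of_monic _ _ fun i _ => monic_X_sub_C _

lemma natDegree_WW (ζ : Fin D → K) : (WW ζ).natDegree = D := by
  unfold WW
  rw [natDegree_prod_of_monic _ _ fun i _ => monic_X_sub_C _]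
  simp

lemma natDegree_erase (ζ : Fin (D + 1) → K) (i : Fin (D + 1)) :
    (∏ j ∈ univ.erase i, (X - C (ζ j))).natDegree = D := by
  rw [natDegree_prod_of_monic _ _ fun i _ => monic_X_sub_C _]
  simp

lemma natDegree_AA_le (ζ r : Fin (D + 1) → K) : (AA ζ r).natDegree ≤ D := by
  unfold AA
  apply natDegree_sum_le_of_forall_le
  intro i _
  refine (natDegree_C_mul_le _ _).trans ?_
  rw [natDegree_erase]

lemma coeff_AA (ζ r : Fin (D + 1) → K) : (AA ζ r).coeff D = ∑ i, r i := by
  unfold AA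
  rw [finset_sum_coeff]
  refine Finset.sum_congr rfl fun i _ => ?_
  rw [coeff_C_mul]
  have h1 : (∏ j ∈ univ.erase i, (X - C (ζ j))).Monic :=
    monic_prod_of_monic _ _ fun i _ => monic_X_sub_C _
  have h2 := h1.coeff_natDegree
  rw [natDegree_erase] at h2
  rw [h2, mul_one]

lemma natDegree_AA (ζ r : Fin (D + 1) → K) (hr : ∑ i, r i = 1) : (AA ζ r).natDegree = D := by
  apply le_antisymm (natDegree_AA_le ζ r)
  apply le_natDegree_of_ne_zero
  rw [coeff_AA, hr]
  exact one_ne_zero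

lemma monic_AA (ζ r : Fin (D + 1) → K) (hr : ∑ i, r i = 1) : (AA ζ r).Monic := by
  unfold Monic leadingCoeff
  rw [natDegree_AA ζ r hr, coeff_AA, hr]

lemma natDegree_PP_le (ζ r : Fin (D + 1) → K) (hr : ∑ i, r i = 1) : (PP ζ r).natDegree ≤ D := by
  have h1 : (PP ζ r).natDegree ≤ D + 1 := by
    unfold PP
    refine (natDegree_sub_le _ _).trans (max_le ?_ (natDegree_WW ζ).le)
    refine natDegree_mul_le.trans ?_
    have := natDegree_AA_le ζ r
    rw [natDegree_X]
    omega
  have h2 : (PP ζ r).coeff (D + 1) = 0 := by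
    unfold PP
    rw [coeff_sub, coeff_X_mul, coeff_AA, hr]
    have := (monic_WW ζ).coeff_natDegree
    rw [natDegree_WW] at this
    rw [this, sub_self]
  by_contra hcon
  push Not at hcon
  have h3 : (PP ζ r).natDegree = D + 1 := by omega
  have h4 : (PP ζ r).leadingCoeff = 0 := by
    unfold leadingCoeff
    rw [h3, h2]
  rw [leadingCoeff_eq_zero] at h4
  rw [h4, natDegree_zero] at h3
  omega

lemma max_PA (ζ r : Fin (D + 1) → K) (hr : ∑ i, r i = 1) :
    max (PP ζ r).natDegree (AA ζ r).natDegree = D := by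
  rw [natDegree_AA ζ r hr]
  exact max_eq_right (natDegree_PP_le ζ r hr)

lemma sub_ne (ζ r : Fin (D + 1) → K) (hD : 1 ≤ D) (hζ : Function.Injective ζ)
    (hr0 : ∀ i, r i ≠ 0) (hr : ∑ i, r i = 1) (c : K) : PP ζ r - C c * AA ζ r ≠ 0 := by
  intro h
  have h1 : AA ζ r ∣ PP ζ r := ⟨C c, by rw [mul_comm]; exact sub_eq_zero.1 h⟩
  have h2 : IsUnit (AA ζ r) := (coprime_PA ζ r hζ hr0).isUnit_of_dvd' h1 dvd_rfl
  have h3 := natDegree_eq_zero_of_isUnit h2
  rw [natDegree_AA ζ r hr] at h3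
  omega

lemma map_WW {K' : Type*} [Field K'] (f : K →+* K') (ζ : Fin D → K) :
    (WW ζ).map f = WW fun i => f (ζ i) := by
  unfold WW
  rw [Polynomial.map_prod]
  simp

lemma map_AA {K' : Type*} [Field K'] (f : K →+* K') (ζ r : Fin D → K) :
    (AA ζ r).map f = AA (fun i => f (ζ i)) fun i => f (r i) := by
  unfold AA
  rw [Polynomial.map_sum]
  simp [Polynomial.map_prod]

lemma map_PP {K' : Type*} [Field K'] (f : K →+* K') (ζ r : Fin D → K) :
    (PP ζ r).map f = PP (fun i => f (ζ i)) fun i => f (r i) := by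
  unfold PP
  rw [Polynomial.map_sub, Polynomial.map_mul, Polynomial.map_X, map_AA, map_WW]

lemma map_wr {K' : Type*} [Field K'] (f : K →+* K') (p q : K[X]) :
    (wr p q).map f = wr (p.map f) (q.map f) := by
  unfold wr
  rw [Polynomial.map_sub, Polynomial.map_mul, Polynomial.map_mul, derivative_map,
    derivative_map]

end

section

variable {k : Type*} {K : Type*} [Field k] [Field K] [Algebra k K] {Q : PlaceData k K}

lemma G_coeff_prod {D : ℕ} (v : Q.Pl) (z : Fin D → k) (s : Finset (Fin D)) (n : ℕ) :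
    Q.G v 0 ((∏ j ∈ s, (X - C (algebraMap k K (z j)))).coeff n) := by
  have h1 : (∏ j ∈ s, (X - C (algebraMap k K (z j)))) =
      (∏ j ∈ s, (X - C (z j))).map (algebraMap k K) := by
    rw [Polynomial.map_prod]
    simp
  rw [h1, coeff_map]
  exact G_alg _

/-- the order of the coefficients of `AA` -/
lemma G_AA {D : ℕ} (v : Q.Pl) (z : Fin D → k) (r : Fin D → K) (n : ℕ) :
    Q.G v (-∑ i, Q.pole v (r i)) ((AA (fun i => algebraMap k K (z i)) r).coeff n) := by
  unfold AA
  rw [finset_sum_coeff]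
  apply G_sum
  intro i _
  rw [coeff_C_mul]
  have h1 := G_mul (G_pole (Q := Q) v (r i)) (G_coeff_prod (Q := Q) v z (univ.erase i) n)
  refine G_mono h1 ?_
  have h2 : Q.pole v (r i) ≤ ∑ i, Q.pole v (r i) :=
    Finset.single_le_sum (fun i _ => pole_nonneg v (r i)) (mem_univ i)
  omega

/-- the order of the coefficients of `PP` -/
lemma G_PP {D : ℕ} (v : Q.Pl) (z : Fin D → k) (r : Fin D → K) (n : ℕ) :
    Q.G v (-∑ i, Q.pole v (r i)) ((PP (fun i => algebraMap k K (z i)) r).coeff n) := by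
  unfold PP
  rw [coeff_sub]
  have h0 : 0 ≤ ∑ i, Q.pole v (r i) := Finset.sum_nonneg fun i _ => pole_nonneg v (r i)
  refine G_sub ?_ (G_mono (G_coeff_prod (Q := Q) v z univ n) (by omega))
  cases n with
  | zero =>
    rw [mul_coeff_zero, coeff_X_zero, zero_mul]
    exact G_zero
  | succ n =>
    rw [coeff_X_mul]
    exact G_AA v z r n

end

end Pool.Agent.X328.FP
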