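import Mathlib
import Pool.Agent.Results.MP_9b502d_nt.LargeCriticalHeight

/-! # Extensions of fields and conjugate maps -/

set_option autoImplicit false

namespace Pool.Agent.X328.FP

open Finset Polynomial
open Pool.Agent.Results.MP_9b502d_nt.LargeCriticalHeight (Conjugate mapHeight height
  canonicalHeight HasLargeCriticalHeight IsCritical)

universe u v w

/-- a field of bounded degree over which a polynomial splits -/
theorem ext_split (k : Type v) (L M : Type u) [Field k] [Field L] [Field M] [Algebra k L]
    [Algebra k M] [Algebra L M] [IsScalarTower k L M] [FiniteDimensional L M] (W : M[X]) (r : ℕ)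
    (hW : W ≠ 0) (hr : W.natDegree ≤ r) :
    ∃ (M' : Type u) (_ : Field M') (_ : Algebra k M') (_ : Algebra L M') (_ : Algebra M M'),
      IsScalarTower k L M' ∧ IsScalarTower k M M' ∧ IsScalarTower L M M' ∧
      FiniteDimensional L M' ∧ FiniteDimensional M M' ∧
      Module.finrank L M' ≤ Module.finrank L M * (r + 1) ^ r ∧
      (W.map (algebraMap M M')).Splits := by
  classical
  let A := AlgebraicClosure M
  let M' : IntermediateField M A := IntermediateField.adjoin M (W.rootSet A)
  obtain ⟨h1, h2⟩ := Pool.Agent.Y555.CH.t_DEG M A W r hW hr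
  have h1' : FiniteDimensional M M' := h1
  have h2' : Module.finrank M M' ≤ (r + 1) ^ r := h2
  have hsp : (W.map (algebraMap M A)).Splits := IsAlgClosed.splits _
  have hsplf : W.IsSplittingField M M' := IntermediateField.adjoin_rootSet_isSplittingField hsp
  have t1 : IsScalarTower k M M' := inferInstance
  have t2 : IsScalarTower L M M' := inferInstance
  have t3 : IsScalarTower k L M' := by
    refine IsScalarTower.of_algebraMap_eq fun x => ?_
    rw [IsScalarTower.algebraMap_apply k M M', IsScalarTower.algebraMap_apply k L M,
      IsScalarTower.algebraMap_apply L M M']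
  have f1 : FiniteDimensional L M' := FiniteDimensional.trans L M M'
  refine ⟨M', inferInstance, inferInstance, inferInstance, inferInstance, t3, t1, t2, f1, h1', ?_,
    hsplf.splits'⟩
  rw [← Module.finrank_mul_finrank L M M']
  exact Nat.mul_le_mul_left _ h2'

/-- conjugate maps over an extension -/
theorem conj_map {M M' : Type*} [Field M] [Field M'] (j : M →+* M') (d : ℕ) (p q u w : M[X])
    (h : Conjugate p q u w d) : Conjugate (p.map j) (q.map j) (u.map j) (w.map j) d := by
  obtain ⟨a, b, c, e, hdet, s, hs, h1, h2⟩ := h
  refine ⟨j a, j b, j c, j e, ?_, j s, (_root_.map_ne_zero j).2 hs, ?_, ?_⟩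
  · rw [← map_mul, ← map_mul, ← map_sub]
    exact (_root_.map_ne_zero j).2 hdet
  · have h3 := congrArg (Polynomial.map j) h1
    simp only [Polynomial.map_sum, Polynomial.map_mul, Polynomial.map_pow, Polynomial.map_add,
      Polynomial.map_C, Polynomial.map_X] at h3
    simp only [coeff_map]
    exact h3
  · have h3 := congrArg (Polynomial.map j) h2
    simp only [Polynomial.map_sum, Polynomial.map_mul, Polynomial.map_pow, Polynomial.map_add,
      Polynomial.map_C, Polynomial.map_X] at h3
    simp only [coeff_map]
    exact h3

/-- a common factor of the two polynomials -/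
theorem conj_scale {M : Type*} [Field M] (d : ℕ) (p q u w : M[X]) (c₀ : M) (hc : c₀ ≠ 0)
    (h : Conjugate p q (C c₀ * u) (C c₀ * w) d) : Conjugate p q u w d := by
  obtain ⟨a, b, c, e, hdet, s, hs, h1, h2⟩ := h
  have hC : (C c₀ : M[X]) ≠ 0 := by rwa [Ne, C_eq_zero]
  have key : ∀ (f F : M[X]), ∑ i ∈ Finset.range (d + 1),
      C ((C c₀ * f).coeff i) * (C a * X + C b) ^ i * (C c * X + C e) ^ (d - i) = C s * F →
      ∑ i ∈ Finset.range (d + 1),
      C (f.coeff i) * (C a * X + C b) ^ i * (C c * X + C e) ^ (d - i) = C (s / c₀) * F := by
    intro f F hf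
    apply mul_left_cancel₀ hC
    rw [← mul_assoc, ← C_mul, mul_div_cancel₀ _ hc, ← hf, Finset.mul_sum]
    refine Finset.sum_congr rfl fun i _ => ?_
    rw [coeff_C_mul, C_mul]
    ring
  exact ⟨a, b, c, e, hdet, s / c₀, div_ne_zero hs hc, key _ _ h1, key _ _ h2⟩

/-- large critical height from bounds for the single coefficients -/
theorem lch_of (k : Type v) (L M M' : Type u) [Field k] [Field L] [Field M] [Field M'] [Algebra k L]
    [Algebra k M] [Algebra L M] [Algebra k M'] [Algebra L M'] [Algebra M M'] [IsScalarTower k L M']
    [IsScalarTower L M M'] [FiniteDimensional L M'] (B : ℕ) (hB : Module.finrank L M' ≤ B) (d : ℕ)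
    (p q : L[X]) (u w : M[X])
    (hcj : Conjugate (p.map (algebraMap L M)) (q.map (algebraMap L M)) u w d)
    (hco : IsCoprime u w) (hmax : max u.natDegree w.natDegree = d)
    (hsp : (derivative (u.map (algebraMap M M')) * w.map (algebraMap M M') -
      u.map (algebraMap M M') * derivative (w.map (algebraMap M M'))).Splits) (c : M')
    (hc : (derivative (u.map (algebraMap M M')) * w.map (algebraMap M M') -
      u.map (algebraMap M M') * derivative (w.map (algebraMap M M'))).eval c = 0)
    (hpos : ∃ i ≤ d, 0 < height k (some ((u.map (algebraMap M M')).coeff i)) ∨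
      0 < height k (some ((w.map (algebraMap M M')).coeff i)))
    (hle : ∀ i, (height k (some ((u.map (algebraMap M M')).coeff i)) : ENNReal) ≤
        B * canonicalHeight k (u.map (algebraMap M M')) (w.map (algebraMap M M')) d (some c) ∧
      (height k (some ((w.map (algebraMap M M')).coeff i)) : ENNReal) ≤
        B * canonicalHeight k (u.map (algebraMap M M')) (w.map (algebraMap M M')) d (some c)) :
    HasLargeCriticalHeight k p q d B := by
  classical
  set j := algebraMap M M' with hj
  have hinj : Function.Injective j := j.injective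
  have hcj' := conj_map j d _ _ _ _ hcj
  rw [Polynomial.map_map, Polynomial.map_map, hj, ← IsScalarTower.algebraMap_eq L M M'] at hcj'
  refine ⟨M', inferInstance, inferInstance, inferInstance, inferInstance, inferInstance, hB,
    u.map j, w.map j, (Polynomial.isCoprime_map j).mpr hco, ?_, hcj', hsp, some c, hc, ?_, ?_⟩
  · rw [natDegree_map_eq_of_injective hinj, natDegree_map_eq_of_injective hinj]
    exact hmax
  · obtain ⟨i, hi, h⟩ := hpos
    have h1 : max (height k (some ((u.map j).coeff i))) (height k (some ((w.map j).coeff i))) ≤
        mapHeight k (u.map j) (w.map j) d :=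
      Finset.le_sup (f := fun i => max (height k (some ((u.map j).coeff i)))
        (height k (some ((w.map j).coeff i)))) (Finset.mem_range.mpr (Nat.lt_succ_of_le hi))
    rcases h with h | h
    · exact lt_of_lt_of_le h ((le_max_left _ _).trans h1)
    · exact lt_of_lt_of_le h ((le_max_right _ _).trans h1)
  · obtain ⟨i, -, hi⟩ := Finset.exists_mem_eq_sup (range (d + 1)) ⟨0, by simp⟩
      (fun i => max (height k (some ((u.map j).coeff i))) (height k (some ((w.map j).coeff i))))
    have h2 : mapHeight k (u.map j) (w.map j) d =
        max (height k (some ((u.map j).coeff i))) (height k (some ((w.map j).coeff i))) := hi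
    rw [h2]
    rcases max_choice (height k (some ((u.map j).coeff i)))
      (height k (some ((w.map j).coeff i))) with h | h
    · rw [h]
      exact (hle i).1
    · rw [h]
      exact (hle i).2

end Pool.Agent.X328.FP
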