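import Mathlib
import Pool.Agent.X328.FP.Bas
import Pool.Agent.X328.FP.Hq
import Pool.Agent.Y706.CH.FinM

/-! # Large critical height, from GL -/

set_option autoImplicit false

namespace Pool.Agent.X328.FP

open Finset Polynomial Pool.Agent.W277.UB Pool.Agent.W277.UB.PlaceData Pool.Agent.W277.UH
open Pool.Agent.Y706.CH (hgt S_PD S_HT S_KF S_FDA)

universe u v w

lemma iter_rat {L : Type*} [Field L] (p q : L[X]) (d : ℕ) (c : L)
    (h : ∀ m, q.eval ((vl p q)^[m] c) ≠ 0) (m : ℕ) :
    (ratP1 p q d)^[m] (some c) = some ((vl p q)^[m] c) := by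
  induction m with
  | zero => rfl
  | succ m ih =>
    rw [Function.iterate_succ_apply', ih, Function.iterate_succ_apply']
    have h1 := h m
    unfold ratP1 vl at *
    simp only [h1, if_false]

lemma le_ls (a B : ENNReal) (hB : B ≠ ⊤) (u : ℕ → ENNReal) (m₀ : ℕ)
    (h : ∀ m, m₀ ≤ m → a ≤ B * u m) : a ≤ B * Filter.limsup u Filter.atTop := by
  rw [← ENNReal.limsup_const_mul_of_ne_top hB]
  apply Filter.le_limsup_of_frequently_le'
  apply Filter.Eventually.frequently
  exact Filter.eventually_atTop.2 ⟨m₀, h⟩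

lemma pole_AA {k K : Type*} [Field k] [Field K] [Algebra k K] {Q : PlaceData k K} {D : ℕ}
    (v : Q.Pl) (z : Fin D → k) (r : Fin D → K) (n : ℕ) :
    Q.pole v ((AA (fun i => algebraMap k K (z i)) r).coeff n) ≤ ∑ i, Q.pole v (r i) :=
  pole_le_of_G (Finset.sum_nonneg fun i _ => pole_nonneg v (r i)) (G_AA v z r n)

lemma pole_PP {k K : Type*} [Field k] [Field K] [Algebra k K] {Q : PlaceData k K} {D : ℕ}
    (v : Q.Pl) (z : Fin D → k) (r : Fin D → K) (n : ℕ) :
    Q.pole v ((PP (fun i => algebraMap k K (z i)) r).coeff n) ≤ ∑ i, Q.pole v (r i) :=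
  pole_le_of_G (Finset.sum_nonneg fun i _ => pole_nonneg v (r i)) (G_PP v z r n)

/-- the set of places with a pole of one of the elements is finite -/
lemma pole_fin {k K : Type*} [Field k] [Field K] [Algebra k K] (Q : PlaceData k K)
    (T : Finset K) : ∃ S : Finset Q.Pl, ∀ x ∈ T, ∀ v, v ∉ S → Q.pole v x = 0 := by
  classical
  refine ⟨T.biUnion fun x => if hx : x = 0 then ∅ else (Q.fin x hx).toFinset, ?_⟩
  intro x hx v hv
  by_cases h0 : x = 0
  · rw [h0, pole_zero]
  · have h1 : Q.ord v x = 0 := by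
      by_contra hcon
      apply hv
      rw [Finset.mem_biUnion]
      refine ⟨x, hx, ?_⟩
      rw [dif_neg h0]
      simpa using hcon
    rw [pole_of_ne h0, h1]
    simp

lemma hQ_le_sum {k K : Type*} [Field k] [Field K] [Algebra k K] (Q : PlaceData k K) {D : ℕ}
    (r : Fin D → K) (y : K) (h : ∀ v, Q.pole v y ≤ ∑ i, Q.pole v (r i)) :
    hQ Q y ≤ ∑ i, hQ Q (r i) := by
  classical
  obtain ⟨S, hS⟩ := pole_fin Q (insert y (univ.image r))
  rw [← hQ_supp Q y S (hS y (by simp)),
    Finset.sum_congr rfl fun i _ => (hQ_supp Q (r i) S (hS (r i) (by simp))).symm,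
    Finset.sum_comm]
  refine Finset.sum_le_sum fun v _ => ?_
  rw [← Finset.mul_sum]
  exact mul_le_mul_of_nonneg_left (h v) (Q.wt_nonneg v)

lemma hQ_pos {k K : Type*} [Field k] [Field K] [Algebra k K] (Q : PlaceData k K) (x : K)
    (hx : ∀ c : k, algebraMap k K c ≠ x) : 0 < hQ Q x := by
  have hx0 : x ≠ 0 := by
    intro h
    exact hx 0 (by rw [h, map_zero])
  obtain ⟨v, hv⟩ : ∃ v, Q.ord v x < 0 := by
    by_contra hcon
    push Not at hcon
    obtain ⟨c, hc⟩ := Q.const x hx0 hcon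
    exact hx c hc
  have h1 := le_hQ Q x {v}
  rw [Finset.sum_singleton] at h1
  have h2 : 1 ≤ Q.pole v x := by
    rw [pole_of_ne hx0]
    apply le_max_of_le_right
    omega
  have h3 : 1 ≤ Q.wt v * Q.pole v x := by nlinarith [Q.wt_one v]
  omega

theorem lch (hGL : S_GL.{u, u, u}) (hPD : S_PD.{u, u}) (hHT : S_HT.{u, v}) (hKF : S_KF.{u, v})
    (hFDA : S_FDA.{u, u}) (d n' : ℕ) (hd : 2 ≤ d) :
    ∃ B : ℕ, ∀ (k : Type v) (M : Type u) [Field k] [CharZero k] [Field M] [Algebra k M] (t : M),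
    Transcendental k t → FiniteDimensional (IntermediateField.adjoin k {t}) M →
    Module.finrank (IntermediateField.adjoin k {t}) M ≤ n' →
    ∀ ζ r : Fin (d + 1) → M, Function.Injective ζ → (∀ i, IsAlgebraic k (ζ i)) →
    (∀ i, r i ≠ 0) → ∑ i, r i = 1 → (∃ i, Transcendental k (r i)) →
    (∀ i, (PP ζ r - C (ζ i) * AA ζ r).Splits) → (wr (PP ζ r) (AA ζ r)).Splits →
    (∀ y : M, Transcendental k y → 0 < hgt k (some y)) ∧
    ∃ c : M, (wr (PP ζ r) (AA ζ r)).eval c = 0 ∧
      ∀ i, (hgt k (some ((PP ζ r).coeff i)) : ENNReal) ≤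
          B * Filter.limsup (fun m => (hgt k ((ratP1 (PP ζ r) (AA ζ r) d)^[m] (some c)) : ENNReal) /
            (d : ENNReal) ^ m) Filter.atTop ∧
        (hgt k (some ((AA ζ r).coeff i)) : ENNReal) ≤
          B * Filter.limsup (fun m => (hgt k ((ratP1 (PP ζ r) (AA ζ r) d)^[m] (some c)) : ENNReal) /
            (d : ENNReal) ^ m) Filter.atTop := by
  classical
  obtain ⟨Cf, hCf⟩ := hPD
  set C₀ : ℕ := (range (n' + 1)).sup Cf with hC₀
  set n₀ : ℕ := 8 * d ^ 2 * (d + 1) with hn₀
  refine ⟨n' * C₀ ^ 2 * d ^ n₀, ?_⟩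
  intro k M _ _ _ _ t ht hfd hn ζ r hζ hζa hr0 hr1 htr hs1 hs2
  obtain ⟨inst, hst, hfin, hle⟩ := Pool.Agent.W277.UD.exists_ratAlg k M t ht
  obtain ⟨hkf, hkfle⟩ := hKF k M t ht hfd
  have : CharZero (algebraicClosure k M) :=
    charZero_of_injective_algebraMap (algebraMap k (algebraicClosure k M)).injective
  have : CharZero (RatFunc (algebraicClosure k M)) := charZero_of_injective_algebraMap
    (algebraMap (algebraicClosure k M) (RatFunc (algebraicClosure k M))).injective
  have halg : ∀ x : M, IsAlgebraic (algebraicClosure k M) x →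
      ∃ c : (algebraicClosure k M), algebraMap (algebraicClosure k M) M c = x := by
    intro y hy
    have h1 : IsAlgebraic k y := hy.restrictScalars k
    exact ⟨⟨y, h1.isIntegral⟩, rfl⟩
  obtain ⟨t₁, ht₁, hfd₁⟩ := hFDA (algebraicClosure k M) M
  have hcomp : ∀ x : M, Module.finrank (IntermediateField.adjoin (algebraicClosure k M) {x}) M ≤
      Module.finrank (IntermediateField.adjoin k {x}) M ∧
      Module.finrank (IntermediateField.adjoin k {x}) M ≤
        n' * Module.finrank (IntermediateField.adjoin (algebraicClosure k M) {x}) M := by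
    intro x
    obtain ⟨h1, h2⟩ := hHT k (algebraicClosure k M) M M t₁ ht₁ hfd₁ x
    refine ⟨h1, h2.trans ?_⟩
    rw [Module.finrank_self, mul_one]
    exact Nat.mul_le_mul_right _ (hkfle.trans hn)
  obtain ⟨i₀, hi₀⟩ := htr
  have hnc : ∀ c : algebraicClosure k M, r i₀ ≠ algebraMap (algebraicClosure k M) M c := by
    intro c hc
    apply hi₀
    rw [hc]
    exact mem_algebraicClosure_iff.mp c.2
  obtain ⟨x, -, hxgen, hxc⟩ := Pool.Agent.W277.UD.exists_gen (k := algebraicClosure k M)
    (F := RatFunc (algebraicClosure k M)) (E := M) Set.univ (IntermediateField.adjoin_univ _ _)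
    (r i₀) (Set.mem_univ _) hnc
  obtain ⟨Q, -, hQ2⟩ := hCf (algebraicClosure k M) M halg x hxgen hxc
  have hC : Cf (Module.finrank (RatFunc (algebraicClosure k M)) M) ≤ C₀ :=
    Finset.le_sup (f := Cf) (Finset.mem_range.2 (Nat.lt_succ_of_le (hle.trans hn)))
  have hh : ∀ y : M, hQ Q y ≤ C₀ * (hgt k (some y) : ℤ) ∧ (hgt k (some y) : ℤ) ≤ n' * C₀ * hQ Q y := by
    intro y
    obtain ⟨S, hS⟩ := pole_fin Q {y}
    have h1 := hQ2 y S (hS y (by simp))
    rw [hQ_supp Q y S (hS y (by simp))] at h1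
    have h2 := hcomp y
    have h3 : hgt k (some y) = Module.finrank (IntermediateField.adjoin k {y}) M := rfl
    rw [h3]
    have h4 := hQ_nonneg Q y
    have hC' : (Cf (Module.finrank (RatFunc (algebraicClosure k M)) M) : ℤ) ≤ C₀ := by
      exact_mod_cast hC
    constructor
    · calc hQ Q y ≤ Cf (Module.finrank (RatFunc (algebraicClosure k M)) M) *
            Module.finrank (IntermediateField.adjoin (algebraicClosure k M) {y}) M := h1.1
        _ ≤ C₀ * Module.finrank (IntermediateField.adjoin k {y}) M := by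
            exact_mod_cast Nat.mul_le_mul hC h2.1
    · calc (Module.finrank (IntermediateField.adjoin k {y}) M : ℤ)
          ≤ n' * Module.finrank (IntermediateField.adjoin (algebraicClosure k M) {y}) M := by
            exact_mod_cast h2.2
        _ ≤ n' * (Cf (Module.finrank (RatFunc (algebraicClosure k M)) M) * hQ Q y) :=
            mul_le_mul_of_nonneg_left h1.2 (Int.natCast_nonneg _)
        _ ≤ n' * (C₀ * hQ Q y) :=
            mul_le_mul_of_nonneg_left (mul_le_mul_of_nonneg_right hC' h4) (Int.natCast_nonneg _)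
        _ = n' * C₀ * hQ Q y := by ring
  -- the constants
  choose z hz using fun i => halg (ζ i) ((hζa i).tower_top _)
  have hzinj : Function.Injective z := by
    intro i j hij
    apply hζ
    rw [← hz i, ← hz j, hij]
  have hζz : ζ = fun i => algebraMap (algebraicClosure k M) M (z i) := funext fun i => (hz i).symm
  have hpos : 0 < ∑ j, hQ Q (r j) := by
    have h1 := hQ_pos Q (r i₀) fun c hc => hnc c hc.symm
    exact lt_of_lt_of_le h1 (Finset.single_le_sum (f := fun j => hQ Q (r j))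
      (fun j _ => hQ_nonneg Q (r j)) (mem_univ i₀))
  obtain ⟨c, hc1, hc2, hc3⟩ := hGL (algebraicClosure k M) M Q d hd z hzinj ζ
    (fun i => (hz i).symm) r hr0 hr1 hpos hs1 hs2
  refine ⟨?_, c, hc1, ?_⟩
  · intro y hy
    by_contra hcon
    have h1 := (hh y).1
    have h2 : hgt k (some y) = 0 := by omega
    rw [h2] at h1
    have h3 := hQ_pos Q y fun c hc => hy (by rw [← hc]; exact mem_algebraicClosure_iff.mp c.2)
    simp only [Nat.cast_zero, mul_zero] at h1
    omega
  have hmain : ∀ y : M, hQ Q y ≤ ∑ j, hQ Q (r j) → (hgt k (some y) : ENNReal) ≤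
      (n' * C₀ ^ 2 * d ^ n₀ : ℕ) * Filter.limsup (fun m =>
        (hgt k ((ratP1 (PP ζ r) (AA ζ r) d)^[m] (some c)) : ENNReal) / (d : ENNReal) ^ m)
          Filter.atTop := by
    intro y hy
    apply le_ls _ _ (ENNReal.natCast_ne_top _) _ n₀
    intro m hm
    obtain ⟨e, rfl⟩ := Nat.exists_eq_add_of_le hm
    rw [iter_rat _ _ _ _ hc2]
    have h1 := hc3 e
    have h2 := (hh ((vl (PP ζ r) (AA ζ r))^[n₀ + e] c)).1
    have h3 := (hh y).2
    set h' := hgt k (some ((vl (PP ζ r) (AA ζ r))^[n₀ + e] c)) with hh'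
    have h4 : d ^ e * hgt k (some y) ≤ n' * C₀ ^ 2 * h' := by
      have h5 : (d ^ e * hgt k (some y) : ℤ) ≤ n' * C₀ ^ 2 * h' := by
        calc (d ^ e * hgt k (some y) : ℤ) ≤ d ^ e * (n' * C₀ * hQ Q y) :=
              mul_le_mul_of_nonneg_left h3 (by positivity)
          _ ≤ d ^ e * (n' * C₀ * ∑ j, hQ Q (r j)) := by
              apply mul_le_mul_of_nonneg_left _ (by positivity)
              exact mul_le_mul_of_nonneg_left hy (by positivity)
          _ = n' * C₀ * (d ^ e * ∑ j, hQ Q (r j)) := by ring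
          _ ≤ n' * C₀ * (C₀ * h') :=
              mul_le_mul_of_nonneg_left (h1.trans h2) (by positivity)
          _ = n' * C₀ ^ 2 * h' := by ring
      exact_mod_cast h5
    have h6 : hgt k (some y) * d ^ (n₀ + e) ≤ n' * C₀ ^ 2 * d ^ n₀ * h' := by
      calc hgt k (some y) * d ^ (n₀ + e) = d ^ n₀ * (d ^ e * hgt k (some y)) := by
            rw [pow_add]
            ring
        _ ≤ d ^ n₀ * (n' * C₀ ^ 2 * h') := Nat.mul_le_mul_left _ h4
        _ = n' * C₀ ^ 2 * d ^ n₀ * h' := by ring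
    rw [← mul_div_assoc, ENNReal.le_div_iff_mul_le]
    · exact_mod_cast h6
    · left
      exact pow_ne_zero _ (by exact_mod_cast (by omega : d ≠ 0))
    · left
      exact ENNReal.pow_ne_top (ENNReal.natCast_ne_top _)
  intro i
  refine ⟨hmain _ (hQ_le_sum Q r _ fun v => ?_), hmain _ (hQ_le_sum Q r _ fun v => ?_)⟩
  · rw [hζz]
    exact pole_PP v z r i
  · rw [hζz]
    exact pole_AA v z r i

end Pool.Agent.X328.FP
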