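import Mathlib

/-! # A critical point which is not a zero -/

set_option autoImplicit false

namespace Pool.Agent.X328.FP

open Polynomial Finset

lemma sum_count_le {α : Type*} [DecidableEq α] (T : Finset α) (m : Multiset α) :
    ∑ e ∈ T, m.count e ≤ m.card := by
  rw [← Multiset.toFinset_sum_count_eq]
  refine Finset.sum_le_sum_of_ne_zero ?_
  intro e _ he
  rw [Multiset.mem_toFinset]
  exact Multiset.count_ne_zero.1 he

/-- a polynomial with a simple zero at `0` and a zero at `1` has a critical point which is not a zero -/
lemma rf {κ : Type*} [Field κ] [CharZero κ] (G : κ[X]) (h0 : G.eval 0 = 0)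
    (h0' : (derivative G).eval 0 ≠ 0) (h1 : G.eval 1 = 0) (hs : (derivative G).Splits) :
    ∃ e, (derivative G).eval e = 0 ∧ G.eval e ≠ 0 := by
  classical
  by_contra hcon
  push Not at hcon
  have hG' : derivative G ≠ 0 := by
    intro h
    rw [h, eval_zero] at h0'
    exact h0' rfl
  have hG : G ≠ 0 := by
    rintro rfl
    exact hG' derivative_zero
  have hdeg : (derivative G).natDegree = G.natDegree - 1 := natDegree_derivative G
  have hpos : G.natDegree ≠ 0 := by
    intro h
    exact hG' (derivative_of_natDegree_zero h)
  have hcard : (derivative G).roots.card = G.natDegree - 1 := by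
    rw [← hdeg]
    exact hs.natDegree_eq_card_roots.symm
  set S := (derivative G).roots.toFinset with hS
  have hcount : ∀ e ∈ S, G.roots.count e = (derivative G).roots.count e + 1 := by
    intro e he
    rw [hS, Multiset.mem_toFinset, mem_roots hG'] at he
    have hr : G.IsRoot e := hcon e he
    have h2 := derivative_rootMultiplicity_of_root hr
    have h3 : 0 < rootMultiplicity e G := (rootMultiplicity_pos hG).2 hr
    rw [count_roots, count_roots, h2]
    omega
  have h0S : (0 : κ) ∉ S := by
    rw [hS, Multiset.mem_toFinset, mem_roots hG']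
    exact h0'
  have h4 := sum_count_le (insert 0 S) G.roots
  rw [Finset.sum_insert h0S, Finset.sum_congr rfl hcount, Finset.sum_add_distrib, Finset.sum_const,
    smul_eq_mul, mul_one, hS, Multiset.toFinset_sum_count_eq, hcard] at h4
  have h5 : 1 ≤ G.roots.count 0 := by
    rw [Nat.one_le_iff_ne_zero, Multiset.count_ne_zero, mem_roots hG]
    exact h0
  have h6 := card_roots' G
  have h7 : (derivative G).roots.toFinset.card = 0 := by omega
  rw [Finset.card_eq_zero, Multiset.toFinset_eq_empty] at h7
  rw [h7, Multiset.card_zero] at hcard
  have h8 : G.natDegree = 1 := by omega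
  have h9 := sum_count_le ({0, 1} : Finset κ) G.roots
  rw [Finset.sum_pair zero_ne_one] at h9
  have h10 : 1 ≤ G.roots.count 1 := by
    rw [Nat.one_le_iff_ne_zero, Multiset.count_ne_zero, mem_roots hG]
    exact h1
  omega

end Pool.Agent.X328.FP
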