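import Mathlib
import Pool.Agent.X328.FP.Stm
import Pool.Agent.X328.FP.Rf
import Pool.Agent.Y784.CH.A

/-! # The valuation ring of a place; products of linear factors -/

set_option autoImplicit false

namespace Pool.Agent.X328.FP

open Finset Polynomial Pool.Agent.W277.UB Pool.Agent.W277.UB.PlaceData

noncomputable section

section

variable {k K : Type*} [Field k] [Field K] [Algebra k K] (Q : PlaceData k K) (v : Q.Pl)

/-- the valuation ring -/
def Av : ValuationSubring K where
  toSubring := Pool.Agent.Y784.CH.Ov Q v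
  mem_or_inv_mem' x := by
    by_cases hx : x = 0
    · left
      rw [hx]
      exact Subring.zero_mem _
    · by_cases h : 0 ≤ Q.ord v x
      · left
        exact fun _ => h
      · right
        intro _
        rw [ord_inv hx]
        omega

lemma mem_Av (x : K) : x ∈ Av Q v ↔ Q.G v 0 x := Iff.rfl

/-- the residue map -/
abbrev rs : Av Q v →+* IsLocalRing.ResidueField (Av Q v) := IsLocalRing.residue _

variable {Q v}

lemma ord_nonneg (x : Av Q v) (hx : (x : K) ≠ 0) : 0 ≤ Q.ord v x := x.2 hx

lemma rs_ne (x : Av Q v) : rs Q v x ≠ 0 ↔ (x : K) ≠ 0 ∧ Q.ord v x = 0 := by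
  rw [IsLocalRing.residue_ne_zero_iff_isUnit]
  constructor
  · intro h
    obtain ⟨y, hy⟩ := h.exists_right_inv
    have h1 : (x : K) * (y : K) = 1 := by
      have := congrArg (fun z : Av Q v => (z : K)) hy
      simpa using this
    have hx : (x : K) ≠ 0 := left_ne_zero_of_mul_eq_one h1
    have hy0 : (y : K) ≠ 0 := right_ne_zero_of_mul_eq_one h1
    refine ⟨hx, ?_⟩
    have h2 := Q.ord_mul v _ _ hx hy0
    rw [h1, ord_one] at h2
    have := ord_nonneg x hx
    have := ord_nonneg y hy0
    omega
  · rintro ⟨hx, h⟩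
    have h1 : (x : K)⁻¹ ∈ Av Q v := by
      intro _
      rw [ord_inv hx, h, neg_zero]
    refine IsUnit.of_mul_eq_one (⟨(x : K)⁻¹, h1⟩ : Av Q v) ?_
    apply Subtype.ext
    show (x : K) * (x : K)⁻¹ = 1
    exact mul_inv_cancel₀ hx

lemma rs_eq_zero {x : Av Q v} (h : (x : K) ≠ 0 → 0 < Q.ord v x) : rs Q v x = 0 := by
  by_contra hcon
  obtain ⟨h1, h2⟩ := (rs_ne x).1 hcon
  have := h h1
  omega

lemma ord_pos_of_rs {x : Av Q v} (h : rs Q v x = 0) (hx : (x : K) ≠ 0) : 0 < Q.ord v x := by
  rcases (ord_nonneg x hx).lt_or_eq with h1 | h1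
  · exact h1
  · exact absurd h ((rs_ne x).2 ⟨hx, h1.symm⟩)

instance [CharZero k] : CharZero (IsLocalRing.ResidueField (Av Q v)) := by
  apply charZero_of_inj_zero
  intro n hn
  by_contra hn0
  have h1 : ((n : Av Q v) : K) = algebraMap k K n := by simp
  have h2 : rs Q v (n : Av Q v) ≠ 0 := by
    rw [rs_ne, h1]
    have h3 : (n : k) ≠ 0 := Nat.cast_ne_zero.2 hn0
    refine ⟨(_root_.map_ne_zero _).2 h3, Q.ord_alg v _ h3⟩
  apply h2
  rw [map_natCast]
  exact hn

open Classical in
/-- an element as an element of the valuation ring -/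
def toA (Q : PlaceData k K) (v : Q.Pl) (x : K) : Av Q v := if h : x ∈ Av Q v then ⟨x, h⟩ else 0

lemma toA_coe {x : K} (h : Q.G v 0 x) : (toA Q v x : K) = x := by
  unfold toA
  rw [dif_pos ((mem_Av Q v x).2 h)]

/-- a product of linear factors over the valuation ring -/
def PA (Q : PlaceData k K) (v : Q.Pl) (s : Multiset K) (c : K) : (Av Q v)[X] :=
  (s.map fun a => 1 - C (toA Q v (c / a)) * X).prod

lemma map_PA (s : Multiset K) (c : K) (h : ∀ a ∈ s, Q.G v 0 (c / a)) :
    (PA Q v s c).map (Av Q v).subtype = (s.map fun a => 1 - C (c / a) * X).prod := by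
  unfold PA
  rw [Polynomial.map_multiset_prod, Multiset.map_map]
  congr 1
  apply Multiset.map_congr rfl
  intro a ha
  simp only [Function.comp_apply, Polynomial.map_sub, Polynomial.map_one, Polynomial.map_mul,
    Polynomial.map_C, Polynomial.map_X]
  congr 3
  exact toA_coe (h a ha)

lemma map_rs_PA (s : Multiset K) (c : K) :
    (PA Q v s c).map (rs Q v) = (s.map fun a => 1 - C (rs Q v (toA Q v (c / a))) * X).prod := by
  unfold PA
  rw [Polynomial.map_multiset_prod, Multiset.map_map]
  congr 1
  apply Multiset.map_congr rfl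
  intro a _
  simp only [Function.comp_apply, Polynomial.map_sub, Polynomial.map_one, Polynomial.map_mul,
    Polynomial.map_C, Polynomial.map_X]

lemma ev_coe (F : (Av Q v)[X]) (y : Av Q v) :
    (F.map (Av Q v).subtype).eval (y : K) = ((F.eval y : Av Q v) : K) := by
  rw [eval_map]
  exact eval₂_at_apply (Av Q v).subtype y

lemma eval_rs (F : (Av Q v)[X]) (y : Av Q v) :
    (F.map (rs Q v)).eval (rs Q v y) = rs Q v (F.eval y) := by
  rw [eval_map]
  exact eval₂_at_apply (rs Q v) y

lemma map_sub_inj : Function.Injective (Polynomial.map (Av Q v).subtype) :=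
  Polynomial.map_injective _ Subtype.coe_injective

end

lemma lin_prod {K : Type*} [Field K] (s : Multiset K) (hs : ∀ a ∈ s, a ≠ 0) :
    (s.map fun a => (X - C a : K[X])).prod =
      C ((s.map fun a => -a).prod) * (s.map fun a => 1 - C a⁻¹ * X).prod := by
  induction s using Multiset.induction_on with
  | empty => simp
  | cons a s ih =>
    have ha := hs a (Multiset.mem_cons_self a s)
    rw [Multiset.map_cons, Multiset.prod_cons, ih fun b hb => hs b (Multiset.mem_cons_of_mem hb),
      Multiset.map_cons, Multiset.prod_cons, Multiset.map_cons, Multiset.prod_cons, C_mul]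
    have h1 : (X - C a : K[X]) = C (-a) * (1 - C a⁻¹ * X) := by
      rw [mul_sub, mul_one, ← mul_assoc, ← C_mul, neg_mul, mul_inv_cancel₀ ha, C_neg, C_neg, C_1]
      ring
    rw [h1]
    ring

lemma eval_lin_prod {K : Type*} [Field K] (s : Multiset K) (f : K → K) (y : K) :
    ((s.map fun a => (1 - C (f a) * X : K[X])).prod).eval y =
      (s.map fun a => 1 - f a * y).prod := by
  rw [eval_multiset_prod, Multiset.map_map]
  congr 1
  apply Multiset.map_congr rfl
  intro a _
  simp

/-- a polynomial which splits and does not vanish at zero -/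
lemma lin {K : Type*} [Field K] (F : K[X]) (hF : F.Splits) (h0 : F.eval 0 ≠ 0) :
    (∀ a ∈ F.roots, a ≠ 0) ∧
      F = C (F.eval 0) * (F.roots.map fun a => 1 - C a⁻¹ * X).prod := by
  have hF0 : F ≠ 0 := by
    rintro rfl
    exact h0 eval_zero
  have hs : ∀ a ∈ F.roots, a ≠ 0 := by
    rintro a ha rfl
    rw [mem_roots hF0] at ha
    exact h0 ha
  refine ⟨hs, ?_⟩
  have h1 := hF.eq_prod_roots
  rw [lin_prod _ hs, ← mul_assoc, ← C_mul] at h1
  have h2 := congrArg (eval 0) h1
  rw [eval_mul, eval_C, eval_lin_prod] at h2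
  simp only [mul_zero, sub_zero, Multiset.map_const', Multiset.prod_replicate, one_pow,
    mul_one] at h2
  rw [h2]
  exact h1

end

end Pool.Agent.X328.FP
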