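import Mathlib
import Pool.Agent.X328.FP.Va

/-! # An attracting fixed point attracts a critical point (S_LOC1) -/

set_option autoImplicit false

namespace Pool.Agent.X328.FP

open Finset Polynomial Pool.Agent.W277.UB Pool.Agent.W277.UB.PlaceData

noncomputable section

universe u v w

variable {k : Type v} {K : Type u} [Field k] [CharZero k] [Field K] [Algebra k K]
  {Q : PlaceData.{w} k K} {v : Q.Pl}

lemma comp_eval (F : K[X]) (z y : K) : (F.comp (C z * X)).eval y = F.eval (z * y) := by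
  rw [eval_comp, eval_mul, eval_C, eval_X]

/-- derivatives after scaling -/
lemma der_scale (F G : K[X]) (z c : K) (hz : z ≠ 0) (h : F.comp (C z * X) = C c * G) (y : K) :
    (derivative F).eval (z * y) = c / z * (derivative G).eval y := by
  have h1 := congrArg (fun P : K[X] => (derivative P).eval y) h
  simp only [derivative_comp, derivative_mul, derivative_C, derivative_X, zero_mul, zero_add,
    mul_one, eval_mul, eval_C, comp_eval] at h1
  field_simp
  linear_combination h1

theorem loc1 (U V : K[X]) (ρ : K) (hρ : ρ ≠ 0) (hρ0 : 0 < Q.ord v ρ)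
    (hU : ∀ i, Q.G v 0 (U.coeff i)) (hU0 : U.coeff 0 ≠ 0) (hU1 : Q.ord v (U.coeff 0) = 0)
    (hV : ∃ i, V.coeff i ≠ 0 ∧ Q.ord v (V.coeff i) < Q.ord v ρ)
    (p q : K[X]) (hp : p = X * (C ρ * U + X * V)) (hq : q = C (1 + ρ) * U + X * V)
    (hps : p.Splits) (hws : (wr p q).Splits) :
    ∃ c : K, (wr p q).eval c = 0 ∧ ∀ m : ℕ, q.eval ((vl p q)^[m] c) ≠ 0 ∧
      (vl p q)^[m + 1] c ≠ 0 ∧ ((m : ℤ) + 1) * Q.ord v ρ ≤ Q.ord v ((vl p q)^[m + 1] c) := by
  classical
  have cK : CharZero K := charZero_of_injective_algebraMap (algebraMap k K).injective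
  set P1 : K[X] := C ρ * U + X * V with hP1
  set u0 : K := U.coeff 0 with hu0
  have hU0e : U.eval 0 = u0 := by rw [hu0, coeff_zero_eq_eval_zero]
  have hq' : q = U + P1 := by
    rw [hq, hP1, C_add, C_1]
    ring
  have hP1e : P1.eval 0 = ρ * u0 := by
    rw [hP1, eval_add, eval_mul, eval_C, eval_mul, eval_X, zero_mul, add_zero, hU0e]
  have hP10 : P1.eval 0 ≠ 0 := by
    rw [hP1e]
    exact mul_ne_zero hρ hU0
  have hP1ne : P1 ≠ 0 := by
    intro h
    rw [h, eval_zero] at hP10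
    exact hP10 rfl
  have hpne : p ≠ 0 := by
    rw [hp]
    exact mul_ne_zero X_ne_zero hP1ne
  have hP1s : P1.Splits := hps.of_dvd hpne (by rw [hp]; exact dvd_mul_left _ _)
  have hordP1 : Q.ord v (P1.eval 0) = Q.ord v ρ := by
    rw [hP1e, Q.ord_mul v _ _ hρ hU0, hU1, add_zero]
  obtain ⟨hroots, hfac⟩ := lin P1 hP1s hP10
  obtain ⟨i₀, hVi, hVo⟩ := hV
  have hcoef : ∀ j, P1.coeff (j + 1) = ρ * U.coeff (j + 1) + V.coeff j := by
    intro j
    rw [hP1, coeff_add, coeff_C_mul, coeff_X_mul]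
  -- not all roots are large
  have hG : ¬ ∀ i, Q.G v (Q.ord v ρ) (P1.coeff i) := by
    intro h
    have h1 := h (i₀ + 1)
    rw [hcoef] at h1
    have h2 : Q.G v (Q.ord v ρ) (ρ * U.coeff (i₀ + 1)) := by
      have := G_mul (Q := Q) (v := v) (m := Q.ord v ρ) (n := 0) (fun _ => le_rfl) (hU (i₀ + 1))
      rwa [add_zero] at this
    have h3 := G_sub h1 h2
    rw [add_sub_cancel_left] at h3
    have := h3 hVi
    omega
  have hbig : ∃ a ∈ P1.roots, 0 < Q.ord v a := by
    by_contra hcon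
    push Not at hcon
    apply hG
    intro i
    have h1 : ∀ a ∈ P1.roots, Q.G v 0 (1 / a) := by
      intro a ha _
      rw [one_div, ord_inv (hroots a ha)]
      have := hcon a ha
      omega
    have h2 := map_PA (Q := Q) (v := v) P1.roots 1 h1
    simp only [one_div] at h2
    rw [hfac, coeff_C_mul, ← h2, coeff_map]
    have h3 : Q.G v (Q.ord v (P1.eval 0) + 0) (P1.eval 0 *
        (Av Q v).subtype ((PA Q v P1.roots 1).coeff i)) :=
      G_mul (fun _ => le_rfl) ((PA Q v P1.roots 1).coeff i).2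
    rw [hordP1, add_zero] at h3
    exact h3
  obtain ⟨a₁, ha₁, ha₁o⟩ := hbig
  obtain ⟨z₀, hz₀, hmax⟩ := Finset.exists_max_image P1.roots.toFinset (Q.ord v)
    ⟨a₁, Multiset.mem_toFinset.2 ha₁⟩
  rw [Multiset.mem_toFinset] at hz₀
  have hz0 : z₀ ≠ 0 := hroots z₀ hz₀
  set σ := Q.ord v z₀ with hσ
  have hσ0 : 0 < σ := lt_of_lt_of_le ha₁o (hmax a₁ (Multiset.mem_toFinset.2 ha₁))
  have hint : ∀ a ∈ P1.roots, Q.G v 0 (z₀ / a) := by
    intro a ha _
    rw [ord_div hz0 (hroots a ha)]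
    have := hmax a (Multiset.mem_toFinset.2 ha)
    omega
  set F : (Av Q v)[X] := PA Q v P1.roots z₀ with hF
  have hFK := map_PA (Q := Q) (v := v) P1.roots z₀ hint
  rw [← hF] at hFK
  have hP1y : ∀ y : K, P1.eval (z₀ * y) = ρ * u0 * (F.map (Av Q v).subtype).eval y := by
    intro y
    conv_lhs => rw [hfac]
    rw [eval_mul, eval_C, hP1e, hFK, eval_lin_prod, eval_lin_prod]
    congr 2
    apply Multiset.map_congr rfl
    intro a _
    rw [div_eq_mul_inv]
    ring
  -- the polynomial `U` after scaling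
  set UA : (Av Q v)[X] := ∑ i ∈ range (U.natDegree + 1),
    C (toA Q v (U.coeff i * z₀ ^ i / u0)) * X ^ i with hUA
  have hUi : ∀ i : ℕ, Q.G v ((i : ℤ) * σ) (U.coeff i * z₀ ^ i / u0) := by
    intro i
    have h1 := G_mul (hU i) (G_pow (Q := Q) (v := v) (m := σ) (x := z₀) (fun _ => le_rfl) i)
    have h2 : Q.G v 0 u0⁻¹ := by
      intro _
      rw [ord_inv hU0, hU1, neg_zero]
    have h3 := G_mul h1 h2
    rw [div_eq_mul_inv]
    exact G_mono h3 (by omega)
  have hUi0 : ∀ i, Q.G v 0 (U.coeff i * z₀ ^ i / u0) := fun i =>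
    G_mono (hUi i) (mul_nonneg (by positivity) hσ0.le)
  have hUAK : ∀ y : K, (UA.map (Av Q v).subtype).eval y = U.eval (z₀ * y) / u0 := by
    intro y
    rw [hUA, Polynomial.map_sum, eval_finsetSum, eval_eq_sum_range, Finset.sum_div]
    refine Finset.sum_congr rfl fun i _ => ?_
    rw [Polynomial.map_mul, Polynomial.map_C, Polynomial.map_pow, Polynomial.map_X, eval_mul,
      eval_C, eval_pow, eval_X]
    have : (Av Q v).subtype (toA Q v (U.coeff i * z₀ ^ i / u0)) = U.coeff i * z₀ ^ i / u0 :=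
      toA_coe (hUi0 i)
    rw [this, mul_pow]
    ring
  have hUArs : UA.map (rs Q v) = 1 := by
    rw [hUA, Polynomial.map_sum, Finset.sum_range_succ']
    have h1 : ∑ i ∈ range U.natDegree, Polynomial.map (rs Q v)
        (C (toA Q v (U.coeff (i + 1) * z₀ ^ (i + 1) / u0)) * X ^ (i + 1)) = 0 := by
      refine Finset.sum_eq_zero fun i _ => ?_
      rw [Polynomial.map_mul, Polynomial.map_C, rs_eq_zero, C_0, zero_mul]
      rw [toA_coe (hUi0 (i + 1))]
      intro h
      have := hUi (i + 1) h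
      push_cast at this
      nlinarith
    rw [h1, zero_add, Polynomial.map_mul, Polynomial.map_C, pow_zero, pow_zero, mul_one,
      Polynomial.map_one, mul_one, ← hu0, div_self hU0]
    have : toA Q v (1 : K) = 1 := by
      apply Subtype.ext
      rw [toA_coe G_one]
      rfl
    rw [this, map_one, C_1]
  have hρA : Q.G v 0 ρ := fun _ => hρ0.le
  obtain ⟨qA, hqA⟩ : ∃ q : (Av Q v)[X], q = UA + C (toA Q v ρ) * F := ⟨_, rfl⟩
  obtain ⟨gA, hgA⟩ : ∃ g : (Av Q v)[X], g = X * F := ⟨_, rfl⟩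
  have hqy : ∀ y : K, q.eval (z₀ * y) = u0 * (qA.map (Av Q v).subtype).eval y := by
    intro y
    have h1 : (Av Q v).subtype (toA Q v ρ) = ρ := toA_coe hρA
    rw [hq', eval_add, hP1y, hqA, Polynomial.map_add, Polynomial.map_mul, Polynomial.map_C, h1,
      eval_add, eval_mul, eval_C, hUAK]
    field_simp
  have hpy : ∀ y : K, p.eval (z₀ * y) = z₀ * ρ * u0 * (gA.map (Av Q v).subtype).eval y := by
    intro y
    rw [hp, eval_mul, eval_X, hP1y, hgA, Polynomial.map_mul, Polynomial.map_X, eval_mul,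
      eval_X]
    ring
  have hrsρ : rs Q v (toA Q v ρ) = 0 := by
    apply rs_eq_zero
    rw [toA_coe hρA]
    exact fun _ => hρ0
  have hqrs : qA.map (rs Q v) = 1 := by
    rw [hqA, Polynomial.map_add, hUArs, Polynomial.map_mul, Polynomial.map_C, hrsρ, C_0, zero_mul,
      add_zero]
  -- the critical points
  obtain ⟨NA, hNA⟩ : ∃ N : (Av Q v)[X], N = derivative gA * qA - gA * derivative qA := ⟨_, rfl⟩
  have hwy : ∀ y : K, (wr p q).eval (z₀ * y) =
      ρ * u0 ^ 2 * (NA.map (Av Q v).subtype).eval y := by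
    intro y
    have h1 : p.comp (C z₀ * X) = C (z₀ * ρ * u0) * gA.map (Av Q v).subtype := by
      apply Polynomial.funext
      intro y
      rw [comp_eval, hpy, eval_mul, eval_C]
    have h2 : q.comp (C z₀ * X) = C u0 * qA.map (Av Q v).subtype := by
      apply Polynomial.funext
      intro y
      rw [comp_eval, hqy, eval_mul, eval_C]
    have h3 := der_scale p _ z₀ _ hz0 h1 y
    have h4 := der_scale q _ z₀ _ hz0 h2 y
    unfold wr
    rw [eval_sub, eval_mul, eval_mul, h3, h4, hpy, hqy, hNA, Polynomial.map_sub,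
      Polynomial.map_mul, Polynomial.map_mul, ← derivative_map, ← derivative_map, Polynomial.eval_sub,
      eval_mul, eval_mul]
    field_simp
  have hNrs : NA.map (rs Q v) = derivative (gA.map (rs Q v)) := by
    rw [hNA, Polynomial.map_sub, Polynomial.map_mul, Polynomial.map_mul, ← derivative_map,
      ← derivative_map, hqrs, derivative_one, mul_one, mul_zero, sub_zero]
  set G := gA.map (rs Q v) with hGdef
  have hGX : G = X * F.map (rs Q v) := by
    rw [hGdef, hgA, Polynomial.map_mul, Polynomial.map_X]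
  have hF0 : (F.map (rs Q v)).eval 0 = 1 := by
    rw [hF, map_rs_PA, eval_multiset_prod, Multiset.map_map]
    simp
  have hG0 : G.eval 0 = 0 := by
    rw [hGX, eval_mul, eval_X, zero_mul]
  have hG0' : (derivative G).eval 0 = 1 := by
    rw [hGX, derivative_mul, derivative_X, one_mul, eval_add, eval_mul, eval_X, zero_mul, add_zero,
      hF0]
  have hG1 : G.eval 1 = 0 := by
    rw [hGX, eval_mul, hF, map_rs_PA, eval_multiset_prod, Multiset.map_map]
    apply mul_eq_zero_of_right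
    rw [Multiset.prod_eq_zero_iff, Multiset.mem_map]
    refine ⟨z₀, hz₀, ?_⟩
    have : toA Q v (z₀ / z₀) = 1 := by
      apply Subtype.ext
      rw [toA_coe (hint z₀ hz₀), div_self hz0]
      rfl
    simp only [Function.comp_apply]
    rw [this, map_one]
    simp
  have hres : ∀ y : Av Q v, rs Q v y = 0 → rs Q v (NA.eval y) = 1 := by
    intro y hy
    rw [← eval_rs, hNrs, hy, hG0']
  have hN0 : ((NA.eval 0 : Av Q v) : K) ≠ 0 := by
    have h1 : rs Q v (NA.eval 0) ≠ 0 := by
      rw [hres 0 (map_zero _)]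
      exact one_ne_zero
    exact ((rs_ne _).1 h1).1
  have hc2 : ρ * u0 ^ 2 ≠ 0 := mul_ne_zero hρ (pow_ne_zero _ hU0)
  have hw0 : (wr p q).eval 0 ≠ 0 := by
    have h1 := hwy 0
    rw [mul_zero] at h1
    rw [h1]
    refine mul_ne_zero hc2 ?_
    have h2 := ev_coe (Q := Q) (v := v) NA 0
    rw [show ((0 : Av Q v) : K) = 0 from rfl] at h2
    rw [h2]
    exact hN0
  obtain ⟨hwr, hwfac⟩ := lin (wr p q) hws hw0
  have hwne : wr p q ≠ 0 := by
    intro h
    rw [h, eval_zero] at hw0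
    exact hw0 rfl
  have hbint : ∀ b ∈ (wr p q).roots, Q.G v 0 (z₀ / b) := by
    intro b hb _
    have hb0 := hwr b hb
    rw [ord_div hz0 hb0]
    by_contra hcon
    push Not at hcon
    have hy0 : b / z₀ ≠ 0 := div_ne_zero hb0 hz0
    have hyo : 0 < Q.ord v (b / z₀) := by
      rw [ord_div hb0 hz0]
      omega
    have hyA : Q.G v 0 (b / z₀) := fun _ => hyo.le
    have h1 := hwy (b / z₀)
    rw [mul_div_cancel₀ _ hz0, (mem_roots hwne).1 hb] at h1
    have h2 : (NA.map (Av Q v).subtype).eval (b / z₀) = 0 :=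
      (mul_eq_zero.1 h1.symm).resolve_left hc2
    have h3 := ev_coe (Q := Q) (v := v) NA (toA Q v (b / z₀))
    rw [toA_coe hyA, h2] at h3
    have h4 : NA.eval (toA Q v (b / z₀)) = 0 := Subtype.ext h3.symm
    have h5 := hres (toA Q v (b / z₀)) (rs_eq_zero (by rw [toA_coe hyA]; exact fun _ => hyo))
    rw [h4, map_zero] at h5
    exact zero_ne_one h5
  have hNfac : NA = C (NA.eval 0) * PA Q v (wr p q).roots z₀ := by
    apply map_sub_inj
    apply Polynomial.funext
    intro y
    rw [Polynomial.map_mul, Polynomial.map_C, map_PA _ _ hbint, eval_mul, eval_C, eval_lin_prod]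
    have h1 := hwy y
    rw [hwfac, eval_mul, eval_C, eval_lin_prod] at h1
    have h2 := hwy 0
    have h3 := ev_coe (Q := Q) (v := v) NA 0
    rw [show ((0 : Av Q v) : K) = 0 from rfl] at h3
    rw [mul_zero, h3] at h2
    rw [h2] at h1
    have h4 : (Multiset.map (fun a => 1 - z₀ / a * y) (wr p q).roots).prod =
        (Multiset.map (fun a => 1 - a⁻¹ * (z₀ * y)) (wr p q).roots).prod := by
      congr 1
      apply Multiset.map_congr rfl
      intro a _
      rw [div_eq_mul_inv]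
      ring
    rw [h4]
    apply mul_left_cancel₀ hc2
    rw [← h1]
    simp only [ValuationSubring.coe_subtype]
    ring
  have hGsp : (derivative G).Splits := by
    rw [← hNrs, hNfac, Polynomial.map_mul, Polynomial.map_C, map_rs_PA]
    refine Splits.mul (Splits.C _) (Splits.multisetProd ?_)
    intro f hf
    rw [Multiset.mem_map] at hf
    obtain ⟨a, _, rfl⟩ := hf
    apply Splits.of_natDegree_le_one
    refine (natDegree_sub_le _ _).trans (max_le ?_ ?_)
    · simp
    · exact (natDegree_C_mul_le _ _).trans natDegree_X_le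
  obtain ⟨e, he1, he2⟩ := rf G hG0 (by rw [hG0']; exact one_ne_zero) hG1 hGsp
  -- a root with residue `e`
  obtain ⟨b, hb, hbe⟩ : ∃ b ∈ (wr p q).roots, rs Q v (toA Q v (z₀ / b)) * e = 1 := by
    have h1 := he1
    rw [← hNrs, hNfac, Polynomial.map_mul, Polynomial.map_C, map_rs_PA, eval_mul, eval_C,
      eval_multiset_prod, Multiset.map_map] at h1
    have h2 : rs Q v (NA.eval 0) ≠ 0 := by
      rw [hres 0 (map_zero _)]
      exact one_ne_zero
    have h3 := (mul_eq_zero.1 h1).resolve_left h2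
    rw [Multiset.prod_eq_zero_iff, Multiset.mem_map] at h3
    obtain ⟨b, hb, hb2⟩ := h3
    refine ⟨b, hb, ?_⟩
    simp only [Function.comp_apply, Polynomial.eval_sub, eval_one, eval_mul, eval_C, eval_X] at hb2
    exact (sub_eq_zero.1 hb2).symm
  have hb0 := hwr b hb
  have hub : rs Q v (toA Q v (z₀ / b)) ≠ 0 := left_ne_zero_of_mul_eq_one hbe
  have hub2 : Q.ord v (z₀ / b) = 0 := by
    have := ((rs_ne _).1 hub).2
    rwa [toA_coe (hbint b hb)] at this
  have hy0o : Q.ord v (b / z₀) = 0 := by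
    rw [ord_div hb0 hz0]
    rw [ord_div hz0 hb0] at hub2
    omega
  have hy0A : Q.G v 0 (b / z₀) := fun _ => hy0o.ge
  have hrse : rs Q v (toA Q v (b / z₀)) = e := by
    have h1 : toA Q v (z₀ / b) * toA Q v (b / z₀) = 1 := by
      apply Subtype.ext
      show (toA Q v (z₀ / b) : K) * (toA Q v (b / z₀) : K) = 1
      rw [toA_coe (hbint b hb), toA_coe hy0A]
      field_simp
    have h2 := congrArg (rs Q v) h1
    rw [map_mul, map_one] at h2
    exact mul_left_cancel₀ hub (h2.trans hbe.symm)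
  -- values at integral points
  have hqu : ∀ y : Av Q v, ((qA.eval y : Av Q v) : K) ≠ 0 ∧ Q.ord v (qA.eval y : Av Q v) = 0 := by
    intro y
    rw [← rs_ne, ← eval_rs, hqrs, eval_one]
    exact one_ne_zero
  have hqne : ∀ y : Av Q v, q.eval (z₀ * y) ≠ 0 := by
    intro y
    rw [hqy, ev_coe]
    exact mul_ne_zero hU0 (hqu y).1
  have hval : ∀ y : Av Q v, vl p q (z₀ * y) =
      z₀ * (ρ * (gA.eval y : Av Q v) / (qA.eval y : Av Q v)) := by
    intro y
    unfold vl
    rw [hpy, hqy, ev_coe, ev_coe]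
    have := (hqu y).1
    field_simp
  have hstep : ∀ y : Av Q v, ((gA.eval y : Av Q v) : K) ≠ 0 →
      ∃ y' : Av Q v, vl p q (z₀ * y) = z₀ * y' ∧ (y' : K) ≠ 0 ∧
        Q.ord v (y' : K) = Q.ord v ρ + Q.ord v (gA.eval y : Av Q v) := by
    intro y hy
    have h1 : ρ * ((gA.eval y : Av Q v) : K) / ((qA.eval y : Av Q v) : K) ≠ 0 :=
      div_ne_zero (mul_ne_zero hρ hy) (hqu y).1
    have h2 : Q.ord v (ρ * ((gA.eval y : Av Q v) : K) / ((qA.eval y : Av Q v) : K)) =
        Q.ord v ρ + Q.ord v (gA.eval y : Av Q v) := by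
      rw [ord_div (mul_ne_zero hρ hy) (hqu y).1, Q.ord_mul v _ _ hρ hy, (hqu y).2, sub_zero]
    have h3 : Q.G v 0 (ρ * ((gA.eval y : Av Q v) : K) / ((qA.eval y : Av Q v) : K)) := by
      intro _
      rw [h2]
      have := ord_nonneg (gA.eval y) hy
      omega
    refine ⟨toA Q v (ρ * ((gA.eval y : Av Q v) : K) / ((qA.eval y : Av Q v) : K)), ?_, ?_, ?_⟩
    · rw [hval, toA_coe h3]
    · rw [toA_coe h3]
      exact h1
    · rw [toA_coe h3]
      exact h2
  have hsmall : ∀ y : Av Q v, (y : K) ≠ 0 → rs Q v y = 0 → ((gA.eval y : Av Q v) : K) ≠ 0 ∧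
      Q.ord v (gA.eval y : Av Q v) = Q.ord v (y : K) := by
    intro y hy hry
    have h1 : rs Q v (F.eval y) ≠ 0 := by
      rw [← eval_rs, hry, hF0]
      exact one_ne_zero
    obtain ⟨h2, h3⟩ := (rs_ne _).1 h1
    have h4 : ((gA.eval y : Av Q v) : K) = (y : K) * ((F.eval y : Av Q v) : K) := by
      rw [hgA, eval_mul, eval_X]
      rfl
    rw [h4]
    refine ⟨mul_ne_zero hy h2, ?_⟩
    rw [Q.ord_mul v _ _ hy h2, h3, add_zero]
  have horb : ∀ m : ℕ, ∃ y : Av Q v, (vl p q)^[m + 1] b = z₀ * y ∧ (y : K) ≠ 0 ∧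
      Q.ord v (y : K) = ((m : ℤ) + 1) * Q.ord v ρ := by
    intro m
    induction m with
    | zero =>
      have h1 : rs Q v (gA.eval (toA Q v (b / z₀))) ≠ 0 := by
        rw [← eval_rs, hrse]
        exact he2
      obtain ⟨h2, h3⟩ := (rs_ne _).1 h1
      obtain ⟨y', h4, h5, h6⟩ := hstep _ h2
      refine ⟨y', ?_, h5, ?_⟩
      · rw [zero_add, Function.iterate_one, ← h4, toA_coe hy0A, mul_div_cancel₀ _ hz0]
      · rw [h6, h3]
        simp
    | succ m ih =>
      obtain ⟨y, h1, h2, h3⟩ := ih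
      have h4 : rs Q v y = 0 := rs_eq_zero fun _ => by
        rw [h3]
        positivity
      obtain ⟨h5, h6⟩ := hsmall y h2 h4
      obtain ⟨y', h7, h8, h9⟩ := hstep y h5
      refine ⟨y', ?_, h8, ?_⟩
      · rw [Function.iterate_succ_apply', h1, h7]
      · rw [h9, h6, h3]
        push_cast
        ring
  refine ⟨b, (mem_roots hwne).1 hb, fun m => ?_⟩
  obtain ⟨y, h1, h2, h3⟩ := horb m
  refine ⟨?_, ?_, ?_⟩
  · cases m with
    | zero =>
      have := hqne (toA Q v (b / z₀))
      rw [toA_coe hy0A, mul_div_cancel₀ _ hz0] at this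
      exact this
    | succ m =>
      obtain ⟨y, h1, _, _⟩ := horb m
      rw [h1]
      exact hqne y
  · rw [h1]
    exact mul_ne_zero hz0 h2
  · rw [h1, Q.ord_mul v _ _ hz0 h2, h3]
    omega

theorem t_LOC1 : S_LOC1.{u, v, w} := by
  intro k K _ _ _ _ Q v U V ρ h1 h2 h3 h4 h5 h6 p q h7 h8 h9 h10
  exact loc1 U V ρ h1 h2 h3 h4 h5 h6 p q h7 h8 h9 h10

end

end Pool.Agent.X328.FP
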