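import Mathlib
import Pool.Agent.X328.FP.Bas
import Pool.Agent.X328.FP.Loc1

/-! # LOC: an attracting fixed point of the map attracts a critical point -/

set_option autoImplicit false

namespace Pool.Agent.X328.FP

open Finset Polynomial Pool.Agent.W277.UB Pool.Agent.W277.UB.PlaceData

universe u v w

section

variable {k : Type v} {K : Type u} [Field k] [Field K] [Algebra k K] {Q : PlaceData.{w} k K}

/-- `∏_{j ≠ i} (X - (ζ_j - ζ_i))` -/
noncomputable def Ui {D : ℕ} (ζ : Fin D → K) (i : Fin D) : K[X] :=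
  ∏ j ∈ univ.erase i, (X - C (ζ j - ζ i))

/-- `∑_{j ≠ i} r_j ∏_{l ≠ i, j} (X - (ζ_l - ζ_i))` -/
noncomputable def Vi {D : ℕ} (ζ r : Fin D → K) (i : Fin D) : K[X] :=
  ∑ j ∈ univ.erase i, C (r j) * ∏ l ∈ (univ.erase i).erase j, (X - C (ζ l - ζ i))

lemma comp_fac (a b : K) : (X - C b : K[X]).comp (X + C a) = X - C (b - a) := by
  rw [sub_comp, X_comp, C_comp, C_sub]
  ring

lemma AA_comp {D : ℕ} (ζ r : Fin D → K) (i : Fin D) :
    (AA ζ r).comp (X + C (ζ i)) = C (r i) * Ui ζ i + X * Vi ζ r i := by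
  classical
  unfold AA Ui Vi
  rw [Polynomial.sum_comp, ← Finset.add_sum_erase _ _ (mem_univ i), Finset.mul_sum]
  congr 1
  · rw [mul_comp, C_comp, Polynomial.prod_comp]
    congr 1
    exact Finset.prod_congr rfl fun j _ => comp_fac _ _
  · refine Finset.sum_congr rfl fun j hj => ?_
    rw [mul_comp, C_comp, Polynomial.prod_comp]
    have hj' : i ∈ univ.erase j := by
      simp only [mem_erase, mem_univ, and_true] at hj ⊢
      exact Ne.symm hj
    rw [← Finset.mul_prod_erase _ _ hj', comp_fac, sub_self, C_0, sub_zero,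
      Finset.erase_right_comm]
    rw [Finset.prod_congr rfl fun l _ => comp_fac (ζ i) (ζ l)]
    ring

lemma WW_comp {D : ℕ} (ζ : Fin D → K) (i : Fin D) :
    (WW ζ).comp (X + C (ζ i)) = X * Ui ζ i := by
  classical
  unfold WW Ui
  rw [Polynomial.prod_comp, ← Finset.mul_prod_erase _ _ (mem_univ i), comp_fac, sub_self, C_0,
    sub_zero, Finset.prod_congr rfl fun l _ => comp_fac (ζ i) (ζ l)]

lemma PP_comp {D : ℕ} (ζ r : Fin D → K) (i : Fin D) :
    (PP ζ r - C (ζ i) * AA ζ r).comp (X + C (ζ i)) =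
      X * (C (r i - 1) * Ui ζ i + X * Vi ζ r i) := by
  have h : (PP ζ r - C (ζ i) * AA ζ r).comp (X + C (ζ i)) =
      X * (AA ζ r).comp (X + C (ζ i)) - (WW ζ).comp (X + C (ζ i)) := by
    unfold PP
    simp only [sub_comp, mul_comp, X_comp, C_comp]
    ring
  rw [h, AA_comp, WW_comp, C_sub, C_1]
  ring

lemma eval_Vi {D : ℕ} (ζ r : Fin D → K) (i j : Fin D) (hj : j ≠ i) :
    (Vi ζ r i).eval (ζ j - ζ i) =
      r j * ∏ l ∈ (univ.erase i).erase j, (ζ j - ζ l) := by
  classical
  unfold Vi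
  rw [eval_finsetSum, Finset.sum_eq_single j]
  · rw [eval_mul, eval_C, eval_prod]
    congr 1
    refine Finset.prod_congr rfl fun l _ => ?_
    simp
  · intro m hm hmj
    rw [eval_mul, eval_prod, Finset.prod_eq_zero (i := j), mul_zero]
    · simp only [mem_erase, mem_univ, and_true]
      exact ⟨Ne.symm hmj, hj⟩
    · simp
  · intro h
    exact absurd (by simpa using hj) h

lemma wr_comp (p q : K[X]) (a : K) :
    wr ((p - C a * q).comp (X + C a)) (q.comp (X + C a)) = (wr p q).comp (X + C a) := by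
  unfold wr
  simp only [derivative_comp, sub_comp, mul_comp, C_comp, derivative_sub, derivative_mul,
    derivative_C, zero_mul, zero_add, derivative_add, derivative_X, add_zero, one_mul]
  ring

lemma G_eval {v : Q.Pl} {m : ℤ} (F : K[X]) (hF : ∀ n, Q.G v m (F.coeff n)) (c : K)
    (hc : Q.G v 0 c) : Q.G v m (F.eval c) := by
  rw [eval_eq_sum_range]
  apply G_sum
  intro n _
  have h1 := G_mul (hF n) (G_pow hc n)
  rwa [mul_zero, add_zero] at h1

end

theorem t_LOC : S_LOC.{u, v, w} := by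
  classical
  intro k K _ _ _ _ Q v d hd z hz ζ hζ r hr0 hr i hri hv hj hs1 hs2
  set a := ζ i with ha
  set P := PP ζ r with hP
  set A := AA ζ r with hA
  have hinj := (algebraMap k K).injective
  have hq := AA_comp ζ r i
  have hp := PP_comp ζ r i
  rw [← ha, ← hA] at hq
  rw [← ha, ← hA, ← hP] at hp
  have hUmap : Ui ζ i = (∏ j ∈ univ.erase i, (X - C (z j - z i))).map (algebraMap k K) := by
    unfold Ui
    rw [Polynomial.map_prod]
    refine Finset.prod_congr rfl fun j _ => ?_
    rw [hζ, hζ, Polynomial.map_sub, Polynomial.map_X, Polynomial.map_C, map_sub (algebraMap k K)]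
  have hU : ∀ n, Q.G v 0 ((Ui ζ i).coeff n) := by
    intro n
    rw [hUmap, coeff_map]
    exact G_alg _
  have hU0' : (Ui ζ i).coeff 0 = algebraMap k K (∏ j ∈ univ.erase i, (z i - z j)) := by
    rw [coeff_zero_eq_eval_zero]
    unfold Ui
    rw [eval_prod, map_prod]
    refine Finset.prod_congr rfl fun j _ => ?_
    rw [hζ, hζ]
    simp
  have hc0 : (∏ j ∈ univ.erase i, (z i - z j)) ≠ 0 := by
    refine Finset.prod_ne_zero_iff.2 fun j hj => ?_
    rw [sub_ne_zero]
    intro h
    exact (Finset.mem_erase.1 hj).1 (hz h).symm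
  have hU0 : (Ui ζ i).coeff 0 ≠ 0 := by
    rw [hU0']
    exact (_root_.map_ne_zero _).2 hc0
  have hU1 : Q.ord v ((Ui ζ i).coeff 0) = 0 := by
    rw [hU0']
    exact Q.ord_alg v _ hc0
  have hV : ∃ n, (Vi ζ r i).coeff n ≠ 0 ∧ Q.ord v ((Vi ζ r i).coeff n) < Q.ord v (r i - 1) := by
    by_contra hcon
    push Not at hcon
    obtain ⟨j, hji, hj⟩ := hj
    have h1 : Q.G v (Q.ord v (r i - 1)) ((Vi ζ r i).eval (ζ j - ζ i)) := by
      apply G_eval _ fun n => ?_
      · rw [hζ, hζ]
        exact G_sub (G_alg _) (G_alg _)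
      · exact hcon n
    rw [eval_Vi ζ r i j hji] at h1
    have h2 : (∏ l ∈ (univ.erase i).erase j, (ζ j - ζ l)) =
        algebraMap k K (∏ l ∈ (univ.erase i).erase j, (z j - z l)) := by
      rw [map_prod]
      refine Finset.prod_congr rfl fun l _ => ?_
      rw [hζ, hζ, map_sub]
    have h3 : (∏ l ∈ (univ.erase i).erase j, (z j - z l)) ≠ 0 := by
      refine Finset.prod_ne_zero_iff.2 fun l hl => ?_
      rw [sub_ne_zero]
      intro h
      exact (Finset.mem_erase.1 hl).1 (hz h).symm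
    rw [h2] at h1
    have h4 := h1 (mul_ne_zero (hr0 j) ((_root_.map_ne_zero _).2 h3))
    rw [Q.ord_mul v _ _ (hr0 j) ((_root_.map_ne_zero _).2 h3), Q.ord_alg v _ h3] at h4
    omega
  have hps : ((P - C a * A).comp (X + C a)).Splits := hs1.comp_X_add_C a
  have hws : (wr ((P - C a * A).comp (X + C a)) (A.comp (X + C a))).Splits := by
    rw [wr_comp]
    exact hs2.comp_X_add_C a
  have h1r : (1 : K) + (r i - 1) = r i := by ring
  obtain ⟨c, hc1, hc2⟩ := t_LOC1 k K Q v (Ui ζ i) (Vi ζ r i) (r i - 1) (sub_ne_zero.2 hri) hv hU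
    hU0 hU1 hV _ _ hp (by rw [h1r]; exact hq) hps hws
  set p := (P - C a * A).comp (X + C a) with hpd
  set q := A.comp (X + C a) with hqd
  have hev : ∀ x, q.eval x = A.eval (x + a) := by
    intro x
    rw [hqd, eval_comp]
    simp
  have hvl : ∀ x, q.eval x ≠ 0 → vl P A (x + a) = vl p q x + a := by
    intro x hx
    have h2 := hx
    rw [hev] at h2
    unfold vl
    rw [hev, hpd, eval_comp, eval_sub, eval_mul, eval_C]
    simp only [eval_add, eval_X, eval_C]
    field_simp
    ring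
  have hit : ∀ m, (vl P A)^[m] (c + a) = (vl p q)^[m] c + a := by
    intro m
    induction m with
    | zero => rfl
    | succ m ih =>
      rw [Function.iterate_succ_apply', ih, hvl _ (hc2 m).1, Function.iterate_succ_apply']
  refine ⟨c + a, ?_, fun m => ⟨?_, ?_, ?_⟩⟩
  · rw [wr_comp, eval_comp] at hc1
    simpa using hc1
  · rw [hit, ← hev]
    exact (hc2 m).1
  · rw [hit]
    intro h
    exact (hc2 m).2.1 (by linear_combination h)
  · rw [hit, add_sub_cancel_right]
    exact (hc2 m).2.2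

end Pool.Agent.X328.FP
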