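import Mathlib
import Pool.Agent.X328.FP.Bas

/-! # The normal form of a map with `d + 1` different finite fixed points -/

set_option autoImplicit false

namespace Pool.Agent.X328.FP

open Finset Polynomial

section

variable {M : Type*} [Field M]

lemma WW_dvd {D : ℕ} (ζ : Fin D → M) (hζ : Function.Injective ζ) (F : M[X])
    (h : ∀ i, F.eval (ζ i) = 0) : WW ζ ∣ F := by
  unfold WW
  apply Finset.prod_dvd_of_coprime
  · intro i _ j _ hij
    have h1 : ζ i ≠ ζ j := fun h => hij (hζ h)
    exact pairwise_coprime_X_sub_C hζ hij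
  · intro i _
    exact dvd_iff_isRoot.2 (h i)

theorem normal_form {d : ℕ} (hd : 2 ≤ d) (u w : M[X]) (hco : IsCoprime u w)
    (hmax : max u.natDegree w.natDegree = d) (ζ : Fin (d + 1) → M) (hζ : Function.Injective ζ)
    (hfix : ∀ i, u.eval (ζ i) = ζ i * w.eval (ζ i)) :
    ∃ c : M, c ≠ 0 ∧ ∃ r : Fin (d + 1) → M, (∀ i, r i ≠ 0) ∧ ∑ i, r i = 1 ∧
      w = C c * AA ζ r ∧ u = C c * PP ζ r := by
  classical
  have hud : u.natDegree ≤ d := hmax ▸ le_max_left _ _
  have hwd : w.natDegree ≤ d := hmax ▸ le_max_right _ _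
  set F : M[X] := X * w - u with hF
  have hFd : F.natDegree ≤ d + 1 := by
    rw [hF]
    refine (natDegree_sub_le _ _).trans (max_le ?_ (by omega))
    refine natDegree_mul_le.trans ?_
    rw [natDegree_X]
    omega
  have hF0 : F ≠ 0 := by
    intro h
    have h1 : u = X * w := by rw [hF] at h; exact (sub_eq_zero.1 h).symm
    have h2 : IsUnit w := hco.isUnit_of_dvd' ⟨X, by rw [h1, mul_comm]⟩ dvd_rfl
    have h3 := natDegree_eq_zero_of_isUnit h2
    have h4 : u.natDegree ≤ 1 := by
      rw [h1]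
      refine natDegree_mul_le.trans ?_
      rw [natDegree_X, h3]
    rw [h3] at hmax
    have : u.natDegree = d := by
      rw [← hmax]
      simp
    omega
  obtain ⟨G, hG⟩ := WW_dvd ζ hζ F fun i => by
    rw [hF, eval_sub, eval_mul, eval_X, hfix i, sub_self]
  have hG0 : G ≠ 0 := by
    rintro rfl
    exact hF0 (by rw [hG, mul_zero])
  have hGd : G.natDegree = 0 := by
    have h1 : F.natDegree = (WW ζ).natDegree + G.natDegree := by
      rw [hG]
      exact natDegree_mul (monic_WW ζ).ne_zero hG0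
    rw [natDegree_WW] at h1
    omega
  obtain ⟨c, hc⟩ : ∃ c, G = C c := ⟨_, eq_C_of_natDegree_eq_zero hGd⟩
  have hc0 : c ≠ 0 := by
    rintro rfl
    exact hG0 (by rw [hc, C_0])
  have hu : u = X * w - C c * WW ζ := by
    have h1 : X * w - u = WW ζ * C c := by rw [← hc, ← hG]
    linear_combination -h1
  have hwc : w.coeff d = c := by
    have h1 := congrArg (fun P : M[X] => P.coeff (d + 1)) hu
    simp only [coeff_sub, coeff_X_mul, coeff_C_mul] at h1
    have h2 : (WW ζ).coeff (d + 1) = 1 := by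
      have h3 := (monic_WW ζ).coeff_natDegree
      rwa [natDegree_WW] at h3
    rw [h2, coeff_eq_zero_of_natDegree_lt (by omega)] at h1
    linear_combination -h1
  have hw0 : ∀ i, w.eval (ζ i) ≠ 0 := by
    intro i h
    obtain ⟨a, b, hab⟩ := hco
    have h1 := congrArg (fun P : M[X] => P.eval (ζ i)) hab
    simp only [eval_add, eval_mul, eval_one] at h1
    rw [hfix i, h, mul_zero, mul_zero, mul_zero, add_zero] at h1
    exact zero_ne_one h1
  have hprod : ∀ i, (∏ j ∈ univ.erase i, (ζ i - ζ j)) ≠ 0 := by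
    intro i
    refine Finset.prod_ne_zero_iff.2 fun j hj => ?_
    rw [sub_ne_zero]
    intro h
    exact (Finset.mem_erase.1 hj).1 (hζ h).symm
  set r : Fin (d + 1) → M := fun i => w.eval (ζ i) / (c * ∏ j ∈ univ.erase i, (ζ i - ζ j)) with hr
  have hw : w = C c * AA ζ r := by
    apply eq_of_natDegree_lt_card_of_eval_eq w (C c * AA ζ r) hζ
    · intro i
      rw [eval_mul, eval_C, eval_AA, hr]
      have := hprod i
      field_simp
    · rw [Fintype.card_fin]
      apply max_lt (by omega)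
      refine (natDegree_C_mul_le _ _).trans_lt ?_
      have := natDegree_AA_le ζ r
      omega
  refine ⟨c, hc0, r, ?_, ?_, hw, ?_⟩
  · intro i
    exact div_ne_zero (hw0 i) (mul_ne_zero hc0 (hprod i))
  · have h1 := hwc
    rw [hw, coeff_C_mul, coeff_AA] at h1
    exact mul_left_cancel₀ hc0 (by rw [h1, mul_one])
  · rw [hu]
    conv_lhs => rw [hw]
    unfold PP
    ring

/-- the derivative of `WW` at a zero -/
lemma eval_der_WW {D : ℕ} (ζ : Fin D → M) (i : Fin D) :
    (derivative (WW ζ)).eval (ζ i) = ∏ j ∈ univ.erase i, (ζ i - ζ j) := by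
  classical
  unfold WW
  rw [← Finset.mul_prod_erase _ _ (mem_univ i), derivative_mul, eval_add, eval_mul, eval_mul]
  have h1 : (X - C (ζ i) : M[X]).eval (ζ i) = 0 := by simp
  rw [h1, zero_mul, add_zero, eval_prod]
  simp

/-- the multiplier of a fixed point -/
lemma mult_PA {D : ℕ} (ζ r : Fin D → M) (hζ : Function.Injective ζ) (hr : ∀ i, r i ≠ 0)
    (i : Fin D) : (wr (PP ζ r) (AA ζ r)).eval (ζ i) / (AA ζ r).eval (ζ i) ^ 2 = 1 - (r i)⁻¹ := by
  classical
  have h1 : (wr (PP ζ r) (AA ζ r)).eval (ζ i) =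
      (AA ζ r).eval (ζ i) ^ 2 - (∏ j ∈ univ.erase i, (ζ i - ζ j)) * (AA ζ r).eval (ζ i) := by
    unfold wr PP
    simp only [derivative_sub, derivative_mul, derivative_X, eval_sub, eval_mul, eval_add,
      eval_one, eval_X, eval_der_WW, eval_WW]
    ring
  have h2 := eval_AA_ne ζ r hζ hr i
  have h3 : (∏ j ∈ univ.erase i, (ζ i - ζ j)) ≠ 0 := by
    intro h
    rw [eval_AA, h, mul_zero] at h2
    exact h2 rfl
  rw [h1, div_eq_iff (pow_ne_zero 2 h2), eval_AA]
  have := hr i
  field_simp

end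

end Pool.Agent.X328.FP
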