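import Mathlib
import Pool.Agent.X328.FP.Lch
import Pool.Agent.X328.FP.Asm
import Pool.Agent.X328.FP.Nf
import Pool.Agent.X328.FP.Loc
import Pool.Agent.X186.FP.GL
import Pool.Agent.X263.FP.STEP
import Pool.Agent.X50.FP.ZA

/-! # Maps with constant fixed points have large critical height -/

set_option autoImplicit false

namespace Pool.Agent.X328.FP

open Finset Polynomial Pool.Agent.W277.UH
open Pool.Agent.Results.MP_9b502d_nt.LargeCriticalHeight (Conjugate mapHeight height
  canonicalHeight HasLargeCriticalHeight IsCritical mapP1)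

universe u v w

lemma wr_ne_PA {K : Type*} [Field K] [CharZero K] {d : ℕ} (hd : 2 ≤ d) (ζ r : Fin (d + 1) → K)
    (hζ : Function.Injective ζ) (hr0 : ∀ i, r i ≠ 0) (hr : ∑ i, r i = 1) :
    wr (PP ζ r) (AA ζ r) ≠ 0 :=
  Pool.Agent.Y706.CH.wr_ne _ _ (coprime_PA ζ r hζ hr0) d (by omega) (max_PA ζ r hr)

lemma natDegree_wr_le {K : Type*} [Field K] (p q : K[X]) (d : ℕ) (hp : p.natDegree ≤ d)
    (hq : q.natDegree ≤ d) : (wr p q).natDegree ≤ 2 * d := by
  unfold wr
  refine (natDegree_sub_le _ _).trans (max_le ?_ ?_)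
  · refine (natDegree_mul_le).trans ?_
    have := natDegree_derivative_le p
    omega
  · refine (natDegree_mul_le).trans ?_
    have := natDegree_derivative_le q
    omega

/-- all critical points and all preimages of fixed points -/
noncomputable def bigW {K : Type*} [Field K] {D : ℕ} (ζ r : Fin D → K) : K[X] :=
  wr (PP ζ r) (AA ζ r) * ∏ i, (PP ζ r - C (ζ i) * AA ζ r)

lemma bigW_ne {K : Type*} [Field K] [CharZero K] {d : ℕ} (hd : 2 ≤ d) (ζ r : Fin (d + 1) → K)
    (hζ : Function.Injective ζ) (hr0 : ∀ i, r i ≠ 0) (hr : ∑ i, r i = 1) : bigW ζ r ≠ 0 :=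
  mul_ne_zero (wr_ne_PA hd ζ r hζ hr0 hr)
    (Finset.prod_ne_zero_iff.2 fun i _ => sub_ne ζ r (by omega) hζ hr0 hr _)

lemma bigW_deg {K : Type*} [Field K] {d : ℕ} (ζ r : Fin (d + 1) → K) (hr : ∑ i, r i = 1) :
    (bigW ζ r).natDegree ≤ 2 * d + (d + 1) * d := by
  unfold bigW
  refine natDegree_mul_le.trans (Nat.add_le_add ?_ ?_)
  · exact natDegree_wr_le _ _ d (natDegree_PP_le ζ r hr) (natDegree_AA_le ζ r)
  · refine (natDegree_prod_le _ _).trans ?_
    refine (Finset.sum_le_card_nsmul _ _ d fun i _ => ?_).trans (by simp)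
    refine (natDegree_sub_le _ _).trans (max_le (natDegree_PP_le ζ r hr) ?_)
    exact (natDegree_C_mul_le _ _).trans (natDegree_AA_le ζ r)

/-- the multiplier of the fixed point `x` of the map `u / w` -/
noncomputable def mult {M : Type*} [Field M] (u w : M[X]) (x : M) : M :=
  (derivative u * w - u * derivative w).eval x / w.eval x ^ 2

theorem fin_lch (d n B : ℕ) (hd : 2 ≤ d) : ∃ B₂ : ℕ, ∀ (k : Type v) (L : Type u) [Field k]
    [CharZero k] [Field L] [Algebra k L] (t : L), Transcendental k t →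
    FiniteDimensional (IntermediateField.adjoin k {t}) L →
    Module.finrank (IntermediateField.adjoin k {t}) L ≤ n → ∀ p q : L[X],
    ∀ (M : Type u) [Field M] [Algebra k M] [Algebra L M] [IsScalarTower k L M]
    [FiniteDimensional L M], Module.finrank L M ≤ B → ∀ u w : M[X], IsCoprime u w →
    max u.natDegree w.natDegree = d →
    Conjugate (p.map (algebraMap L M)) (q.map (algebraMap L M)) u w d →
    ∀ ζ : Fin (d + 1) → M, Function.Injective ζ → (∀ i, IsAlgebraic k (ζ i)) →
    (∀ i, u.eval (ζ i) = ζ i * w.eval (ζ i)) → (∃ i, Transcendental k (mult u w (ζ i))) →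
    HasLargeCriticalHeight k p q d B₂ := by
  classical
  set r₀ := 2 * d + (d + 1) * d with hr₀
  obtain ⟨B₁, hB₁⟩ := lch.{u, v} (Pool.Agent.X186.FP.t_GL t_LOC t_HQ Pool.Agent.X50.FP.t_ZA
    Pool.Agent.X263.FP.t_STEP) Pool.Agent.Y362.CH.t_PD Pool.Agent.Y968.CH.t_HT
    Pool.Agent.Y968.CH.t_KF Pool.Agent.Y195.CH.t_FDA d (n * (B * (r₀ + 1) ^ r₀)) hd
  refine ⟨max (B * (r₀ + 1) ^ r₀) B₁, ?_⟩
  intro k L _ _ _ _ t ht hfd hn p q M _ _ _ _ _ hfr u w hco hmax hcj ζ hζ hζa hfix hmul
  obtain ⟨c₀, hc₀, r, hr0, hr1, hw, hu⟩ := normal_form hd u w hco hmax ζ hζ hfix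
  have cM : CharZero M := charZero_of_injective_algebraMap (algebraMap k M).injective
  obtain ⟨M', i1, i2, i3, i4, t1, t2, t3, f1, f2, hdeg, hsp⟩ := ext_split k L M (bigW ζ r) r₀
    (bigW_ne hd ζ r hζ hr0 hr1) (bigW_deg ζ r hr1)
  have cM' : CharZero M' := charZero_of_injective_algebraMap (algebraMap k M').injective
  set j := algebraMap M M' with hj
  have hinj : Function.Injective j := j.injective
  have hfr' : Module.finrank L M' ≤ B * (r₀ + 1) ^ r₀ :=
    hdeg.trans (Nat.mul_le_mul_right _ hfr)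
  -- the variable
  have ht' : Transcendental k (algebraMap L M' t) := by
    intro h
    exact ht ((isAlgebraic_algebraMap_iff (algebraMap L M').injective).mp h)
  have hte : Module.finrank (IntermediateField.adjoin k {algebraMap L M' t}) M' =
      Module.finrank (IntermediateField.adjoin k {t}) L * Module.finrank L M' :=
    Pool.Agent.Y555.CH.t_HTE k L M' t
  have htf : FiniteDimensional (IntermediateField.adjoin k {algebraMap L M' t}) M' := by
    apply FiniteDimensional.of_finrank_pos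
    rw [hte]
    exact Nat.mul_pos Module.finrank_pos Module.finrank_pos
  have hle : Module.finrank (IntermediateField.adjoin k {algebraMap L M' t}) M' ≤
      n * (B * (r₀ + 1) ^ r₀) := by
    rw [hte]
    exact Nat.mul_le_mul hn hfr'
  -- the data over `M'`
  set ζ' : Fin (d + 1) → M' := fun i => j (ζ i) with hζ'
  set r' : Fin (d + 1) → M' := fun i => j (r i) with hr'
  have hPP : (PP ζ r).map j = PP ζ' r' := map_PP j ζ r
  have hAA : (AA ζ r).map j = AA ζ' r' := map_AA j ζ r
  have hζ'inj : Function.Injective ζ' := hinj.comp hζ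
  have hζ'a : ∀ i, IsAlgebraic k (ζ' i) := by
    intro i
    exact (hζa i).algebraMap
  have hr'0 : ∀ i, r' i ≠ 0 := fun i => (_root_.map_ne_zero j).2 (hr0 i)
  have hr'1 : ∑ i, r' i = 1 := by rw [hr', ← map_sum, hr1, map_one]
  have htr : ∃ i, Transcendental k (r' i) := by
    obtain ⟨i, hi⟩ := hmul
    refine ⟨i, fun h => hi ?_⟩
    have h1 : IsAlgebraic k (r i) := (isAlgebraic_algebraMap_iff hinj).mp h
    have h2 : mult u w (ζ i) = 1 - (r i)⁻¹ := by
      rw [← mult_PA ζ r hζ hr0 i]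
      unfold mult wr
      rw [hw, hu]
      simp only [derivative_mul, derivative_C, zero_mul, zero_add, eval_sub, eval_mul, eval_C]
      have h3 := eval_AA_ne ζ r hζ hr0 i
      field_simp
    rw [h2]
    exact (isAlgebraic_one).sub h1.inv
  have hW' : (bigW ζ r).map j = wr (PP ζ' r') (AA ζ' r') *
      ∏ i, (PP ζ' r' - C (ζ' i) * AA ζ' r') := by
    unfold bigW
    rw [Polynomial.map_mul, map_wr, Polynomial.map_prod, hPP, hAA]
    congr 1
    refine Finset.prod_congr rfl fun i _ => ?_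
    rw [Polynomial.map_sub, Polynomial.map_mul, Polynomial.map_C, hPP, hAA]
  rw [hW'] at hsp
  have hW0 : wr (PP ζ' r') (AA ζ' r') * ∏ i, (PP ζ' r' - C (ζ' i) * AA ζ' r') ≠ 0 :=
    bigW_ne hd ζ' r' hζ'inj hr'0 hr'1
  have hs2 : (wr (PP ζ' r') (AA ζ' r')).Splits :=
    hsp.of_dvd hW0 (dvd_mul_right _ _)
  have hs1 : ∀ i, (PP ζ' r' - C (ζ' i) * AA ζ' r').Splits := fun i =>
    hsp.of_dvd hW0 ((Finset.dvd_prod_of_mem _ (mem_univ i)).mul_left _)
  obtain ⟨hpos, c, hc1, hc2⟩ := hB₁ k M' _ ht' htf hle ζ' r' hζ'inj hζ'a hr'0 hr'1 htr hs1 hs2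
  -- a coefficient which is not constant
  have hcoef : ∃ i ≤ d, Transcendental k ((AA ζ' r').coeff i) := by
    by_contra hcon
    push Not at hcon
    obtain ⟨i, hi⟩ := htr
    apply hi
    have h1 : ∀ n, (AA ζ' r').coeff n ∈ algebraicClosure k M' := by
      intro n
      by_cases hn : n ≤ d
      · have := hcon n hn
        rw [Transcendental, not_not] at this
        exact mem_algebraicClosure_iff.mpr this
      · rw [coeff_eq_zero_of_natDegree_lt (by have := natDegree_AA_le ζ' r'; omega)]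
        exact zero_mem _
    have h2 : ∀ i, ζ' i ∈ algebraicClosure k M' := fun i => mem_algebraicClosure_iff.mpr (hζ'a i)
    have h3 : (AA ζ' r').eval (ζ' i) ∈ algebraicClosure k M' := by
      rw [eval_eq_sum_range]
      exact sum_mem fun n _ => mul_mem (h1 n) (pow_mem (h2 i) n)
    have h4 : ∏ j ∈ univ.erase i, (ζ' i - ζ' j) ∈ algebraicClosure k M' :=
      prod_mem fun l _ => sub_mem (h2 i) (h2 l)
    have h5 : ∏ j ∈ univ.erase i, (ζ' i - ζ' j) ≠ 0 := by
      intro h
      have := eval_AA_ne ζ' r' hζ'inj hr'0 i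
      rw [eval_AA, h, mul_zero] at this
      exact this rfl
    have h6 : r' i = (AA ζ' r').eval (ζ' i) / ∏ j ∈ univ.erase i, (ζ' i - ζ' j) := by
      rw [eval_AA, mul_div_cancel_right₀ _ h5]
    rw [h6]
    exact mem_algebraicClosure_iff.mp (div_mem h3 h4)
  have hh : ∀ z : Option M', height k z = Pool.Agent.Y706.CH.hgt k z := by
    intro z
    cases z <;> rfl
  have hcan : canonicalHeight k (PP ζ' r') (AA ζ' r') d (some c) =
      Filter.limsup (fun m => (Pool.Agent.Y706.CH.hgt k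
        ((ratP1 (PP ζ' r') (AA ζ' r') d)^[m] (some c)) : ENNReal) / (d : ENNReal) ^ m)
          Filter.atTop := by
    have e : mapP1 (PP ζ' r') (AA ζ' r') d = ratP1 (PP ζ' r') (AA ζ' r') d := by
      funext z
      cases z <;> rfl
    unfold canonicalHeight
    rw [e]
    simp only [hh]
  have hB12 : (B₁ : ENNReal) ≤ ((max (B * (r₀ + 1) ^ r₀) B₁ : ℕ) : ENNReal) := by
    exact_mod_cast le_max_right _ _
  refine lch_of k L M M' _ (hfr'.trans (le_max_left _ _)) d p q (PP ζ r) (AA ζ r) ?_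
    (coprime_PA ζ r hζ hr0) (max_PA ζ r hr1) ?_ c ?_ ?_ ?_
  · apply conj_scale d _ _ _ _ c₀ hc₀
    rw [← hw, ← hu]
    exact hcj
  · rw [← hj, hPP, hAA]
    exact hs2
  · rw [← hj, hPP, hAA]
    exact hc1
  · obtain ⟨i, hi, htri⟩ := hcoef
    refine ⟨i, hi, Or.inr ?_⟩
    rw [← hj, hAA, hh]
    exact hpos _ htri
  · intro i
    rw [← hj, hPP, hAA, hcan, hh, hh]
    exact ⟨(hc2 i).1.trans (mul_le_mul_left hB12 _), (hc2 i).2.trans (mul_le_mul_left hB12 _)⟩

end Pool.Agent.X328.FP
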